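import Pool.Agent.CliqueCount.Enc

set_option autoImplicit false

open Finset

namespace Pool.Agent.CliqueCount

open scoped Classical in
/-- number of common neighbours in `X` of the vertices of `S` -/
noncomputable def cnt {Y X : Type*} [Fintype X] (A : Y → X → Prop) (S : Finset Y) : ℕ :=
  (univ.filter fun x : X => ∀ y ∈ S, A y x).card

open scoped Classical in
/-- the cliques of `G`, the empty one included -/
noncomputable def clq {V : Type*} [Fintype V] (G : SimpleGraph V) : Finset (Finset V) :=
  univ.filter fun s : Finset V => G.IsClique (s : Set V)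

lemma mem_clq {V : Type*} [Fintype V] (G : SimpleGraph V) (s : Finset V) :
    s ∈ clq G ↔ G.IsClique (s : Set V) := by
  simp [clq]

/-- weighted number of cliques of `G` -/
noncomputable def tot {Y X : Type*} [Fintype Y] [Fintype X] (G : SimpleGraph Y)
    (A : Y → X → Prop) : ℕ :=
  ∑ S ∈ clq G, 2 ^ cnt A S

/-- `h` can be attained with `y` extra vertices over a clique with `K` vertices. -/
def Attain (K y h : ℕ) : Prop :=
  ∃ (Y : Type) (_ : Fintype Y) (G : SimpleGraph Y) (A : Y → Fin K → Prop),
    Fintype.card Y = y ∧ tot G A = 2 ^ K + h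

lemma cnt_equiv {Y X X' : Type*} [Fintype X] [Fintype X'] (e : X ≃ X') (A : Y → X → Prop)
    (S : Finset Y) : cnt (fun y x' => A y (e.symm x')) S = cnt A S := by
  classical
  unfold cnt
  apply Finset.card_bij (fun x' _ => e.symm x')
  · intro a ha
    simpa using ha
  · intro a _ b _ h
    exact e.symm.injective h
  · intro b hb
    exact ⟨e b, by simpa using hb, by simp⟩

lemma cnt_empty {Y X : Type*} [Fintype X] (A : Y → X → Prop) :
    cnt A ∅ = Fintype.card X := by
  simp [cnt]

lemma tot_equiv {Y X X' : Type*} [Fintype Y] [Fintype X] [Fintype X'] (e : X ≃ X')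
    (G : SimpleGraph Y) (A : Y → X → Prop) :
    tot G (fun y x' => A y (e.symm x')) = tot G A := by
  unfold tot
  apply Finset.sum_congr rfl
  intro S _
  rw [cnt_equiv]

lemma attain_of {Y X : Type} [Fintype Y] [Fintype X] (G : SimpleGraph Y)
    (A : Y → X → Prop) {K y h : ℕ} (hX : Fintype.card X = K) (hY : Fintype.card Y = y)
    (ht : tot G A = 2 ^ K + h) : Attain K y h := by
  subst hX
  refine ⟨Y, inferInstance, G, fun y x' => A y ((Fintype.equivFin X).symm x'), hY, ?_⟩
  rw [tot_equiv]
  exact ht

lemma attain_zero (K : ℕ) : Attain K 0 0 := by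
  refine ⟨Empty, inferInstance, ⊥, fun y => y.elim, by simp, ?_⟩
  unfold tot
  have : clq (⊥ : SimpleGraph Empty) = {∅} := by
    ext S
    rw [mem_clq]
    simp [Finset.eq_empty_of_isEmpty S]
  rw [this]
  simp [cnt_empty]

lemma attain_single {K e : ℕ} (he : e ≤ K) : Attain K 1 (2 ^ e) := by
  refine ⟨Unit, inferInstance, ⊥, fun _ x => (x : ℕ) < e, by simp, ?_⟩
  unfold tot
  have : clq (⊥ : SimpleGraph Unit) = {∅, {()}} := by
    ext S
    rw [mem_clq]
    have : S = ∅ ∨ S = {()} := by
      rcases S.eq_empty_or_nonempty with h | h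
      · exact Or.inl h
      · right
        ext x
        simp only [Finset.mem_singleton, iff_true]
        obtain ⟨y, hy⟩ := h
        simpa using hy
    rcases this with rfl | rfl <;> simp
  rw [this, Finset.sum_pair (by simp)]
  have h1 : cnt (fun (_ : Unit) (x : Fin K) => (x : ℕ) < e) {()} = e := by
    have e0 : cnt (fun (_ : Unit) (x : Fin K) => (x : ℕ) < e) {()} =
        (univ.filter fun x : Fin K => (x : ℕ) < e).card := by
      unfold cnt
      congr 1
      ext x
      simp
    rw [e0, Fin.card_filter_val_lt]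
    exact min_eq_right he
  rw [h1, cnt_empty]
  simp

lemma clq_sum {Y₁ Y₂ : Type*} [Fintype Y₁] [Fintype Y₂] [DecidableEq Y₁] [DecidableEq Y₂]
    (G₁ : SimpleGraph Y₁) (G₂ : SimpleGraph Y₂) :
    clq (G₁ ⊕g G₂) = (clq G₁).image (fun S => S.map Function.Embedding.inl) ∪
      ((clq G₂).erase ∅).image (fun S => S.map Function.Embedding.inr) := by
  ext S
  simp only [mem_union, mem_image, mem_erase, mem_clq]
  constructor
  · intro h
    by_cases hr : ∃ b, Sum.inr b ∈ S
    · right
      obtain ⟨b, hb⟩ := hr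
      have key : ∀ x ∈ S, ∃ y, x = Sum.inr y := by
        intro x hx
        rcases x with a | y
        · exfalso
          have := h (Finset.mem_coe.2 hx) (Finset.mem_coe.2 hb) (by simp)
          simp [SimpleGraph.sum] at this
        · exact ⟨y, rfl⟩
      refine ⟨univ.filter (fun y => Sum.inr y ∈ S), ⟨?_, ?_⟩, ?_⟩
      · apply Finset.Nonempty.ne_empty
        exact ⟨b, by simpa using hb⟩
      · intro x hx y hy hxy
        simp only [Finset.coe_filter, mem_univ, true_and, Set.mem_ofPred_eq] at hx hy
        have := h (Finset.mem_coe.2 hx) (Finset.mem_coe.2 hy) (by simpa using hxy)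
        simpa using this
      · ext x
        simp only [mem_map, mem_filter, mem_univ, true_and, Function.Embedding.inr_apply]
        constructor
        · rintro ⟨y, hy, rfl⟩; exact hy
        · intro hx
          obtain ⟨y, rfl⟩ := key x hx
          exact ⟨y, hx, rfl⟩
    · left
      push Not at hr
      have key : ∀ x ∈ S, ∃ y, x = Sum.inl y := by
        intro x hx
        rcases x with a | y
        · exact ⟨a, rfl⟩
        · exact absurd hx (hr y)
      refine ⟨univ.filter (fun y => Sum.inl y ∈ S), ?_, ?_⟩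
      · intro x hx y hy hxy
        simp only [Finset.coe_filter, mem_univ, true_and, Set.mem_ofPred_eq] at hx hy
        have := h (Finset.mem_coe.2 hx) (Finset.mem_coe.2 hy) (by simpa using hxy)
        simpa using this
      · ext x
        simp only [mem_map, mem_filter, mem_univ, true_and, Function.Embedding.inl_apply]
        constructor
        · rintro ⟨y, hy, rfl⟩; exact hy
        · intro hx
          obtain ⟨y, rfl⟩ := key x hx
          exact ⟨y, hx, rfl⟩
  · rintro (⟨S₁, h₁, rfl⟩ | ⟨S₂, ⟨_, h₂⟩, rfl⟩)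
    · intro x hx y hy hxy
      simp only [Finset.coe_map, Set.mem_image, Finset.mem_coe, Function.Embedding.inl_apply]
        at hx hy
      obtain ⟨a, ha, rfl⟩ := hx
      obtain ⟨b, hb, rfl⟩ := hy
      have := h₁ (Finset.mem_coe.2 ha) (Finset.mem_coe.2 hb) (by simpa using hxy)
      simpa using this
    · intro x hx y hy hxy
      simp only [Finset.coe_map, Set.mem_image, Finset.mem_coe, Function.Embedding.inr_apply]
        at hx hy
      obtain ⟨a, ha, rfl⟩ := hx
      obtain ⟨b, hb, rfl⟩ := hy
      have := h₂ (Finset.mem_coe.2 ha) (Finset.mem_coe.2 hb) (by simpa using hxy)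
      simpa using this

lemma tot_sum {Y₁ Y₂ X : Type*} [Fintype Y₁] [Fintype Y₂] [Fintype X]
    (G₁ : SimpleGraph Y₁) (G₂ : SimpleGraph Y₂) (A₁ : Y₁ → X → Prop) (A₂ : Y₂ → X → Prop) :
    tot (G₁ ⊕g G₂) (fun y x => Sum.elim (fun a => A₁ a x) (fun b => A₂ b x) y)
      + 2 ^ Fintype.card X = tot G₁ A₁ + tot G₂ A₂ := by
  classical
  unfold tot
  rw [clq_sum, Finset.sum_union, Finset.sum_image, Finset.sum_image]
  · have e1 : ∀ S : Finset Y₁, cnt (fun (y : Y₁ ⊕ Y₂) x =>
        Sum.elim (fun a => A₁ a x) (fun b => A₂ b x) y) (S.map Function.Embedding.inl) =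
        cnt A₁ S := by
      intro S
      unfold cnt
      congr 1
      ext x
      simp
    have e2 : ∀ S : Finset Y₂, cnt (fun (y : Y₁ ⊕ Y₂) x =>
        Sum.elim (fun a => A₁ a x) (fun b => A₂ b x) y) (S.map Function.Embedding.inr) =
        cnt A₂ S := by
      intro S
      unfold cnt
      congr 1
      ext x
      simp
    simp only [e1, e2]
    have h0 : (∅ : Finset Y₂) ∈ clq G₂ := by rw [mem_clq]; simp
    rw [← Finset.sum_erase_add _ _ h0, cnt_empty]
    ring
  · intro a _ b _ h
    exact Finset.map_injective _ h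
  · intro a _ b _ h
    exact Finset.map_injective _ h
  · rw [Finset.disjoint_left]
    intro S h1 h2
    simp only [mem_image, mem_erase] at h1 h2
    obtain ⟨S₁, _, rfl⟩ := h1
    obtain ⟨S₂, ⟨hne, _⟩, h⟩ := h2
    obtain ⟨b, hb⟩ := Finset.nonempty_iff_ne_empty.2 hne
    have : Sum.inr b ∈ S₂.map (Function.Embedding.inr : Y₂ ↪ Y₁ ⊕ Y₂) := by
      simpa using hb
    rw [h] at this
    simp at this

lemma attain_add {K y₁ y₂ h₁ h₂ : ℕ} (a₁ : Attain K y₁ h₁) (a₂ : Attain K y₂ h₂) :
    Attain K (y₁ + y₂) (h₁ + h₂) := by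
  obtain ⟨Y₁, i₁, G₁, A₁, c₁, t₁⟩ := a₁
  obtain ⟨Y₂, i₂, G₂, A₂, c₂, t₂⟩ := a₂
  refine ⟨Y₁ ⊕ Y₂, inferInstance, G₁ ⊕g G₂,
    fun y x => Sum.elim (fun a => A₁ a x) (fun b => A₂ b x) y, by simp [c₁, c₂], ?_⟩
  have := tot_sum G₁ G₂ A₁ A₂
  rw [t₁, t₂, Fintype.card_fin] at this
  omega

/-- The graph on `X ⊕ Y` with `X` a clique. -/
def full {Y X : Type*} (G : SimpleGraph Y) (A : Y → X → Prop) : SimpleGraph (X ⊕ Y) where
  Adj
    | .inl x, .inl x' => x ≠ x'
    | .inl x, .inr y => A y x
    | .inr y, .inl x => A y x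
    | .inr y, .inr y' => G.Adj y y'
  symm := ⟨by
    intro a b h
    rcases a with a | a <;> rcases b with b | b <;> simp_all [ne_comm, G.adj_comm]⟩
  loopless := ⟨by
    intro a
    rcases a with a | a <;> simp⟩

lemma isClique_full {Y X : Type*} (G : SimpleGraph Y) (A : Y → X → Prop)
    (T : Finset X) (S : Finset Y) :
    (full G A).IsClique (T.disjSum S : Set (X ⊕ Y)) ↔
      G.IsClique (S : Set Y) ∧ ∀ x ∈ T, ∀ y ∈ S, A y x := by
  constructor
  · intro h
    constructor
    · intro a ha b hb hab
      have := @h (.inr a) (by simpa using ha) (.inr b) (by simpa using hb) (by simpa using hab)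
      exact this
    · intro x hx y hy
      have := @h (.inl x) (by simpa using hx) (.inr y) (by simpa using hy) (by simp)
      exact this
  · rintro ⟨h1, h2⟩ a ha b hb hab
    rcases a with a | a <;> rcases b with b | b
    · show a ≠ b
      intro h; exact hab (by rw [h])
    · show A b a
      exact h2 a (by simpa using ha) b (by simpa using hb)
    · show A a b
      exact h2 b (by simpa using hb) a (by simpa using ha)
    · show G.Adj a b
      exact h1 (by simpa using ha) (by simpa using hb) (fun h => hab (by rw [h]))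

lemma card_clq_full {Y X : Type*} [Fintype Y] [Fintype X] (G : SimpleGraph Y)
    (A : Y → X → Prop) : (clq (full G A)).card = tot G A := by
  classical
  unfold tot
  have h1 : ∀ S : Finset Y, 2 ^ cnt A S =
      ((univ.filter fun x : X => ∀ y ∈ S, A y x).powerset).card := by
    intro S
    rw [Finset.card_powerset, cnt]
    congr!
  simp only [h1]
  rw [← Finset.card_sigma]
  symm
  apply Finset.card_bij (fun (p : Σ _ : Finset Y, Finset X) _ => p.2.disjSum p.1)
  · rintro ⟨S, T⟩ hp
    simp only [mem_sigma, mem_clq, mem_powerset] at hp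
    rw [mem_clq, isClique_full]
    refine ⟨hp.1, fun x hx y hy => ?_⟩
    have := hp.2 hx
    simp only [mem_filter, mem_univ, true_and] at this
    exact this y hy
  · rintro ⟨S, T⟩ _ ⟨S', T'⟩ _ h
    simp only at h
    have := Finset.disjSum_inj.1 h
    simp [this.1, this.2]
  · intro U hU
    refine ⟨⟨U.toRight, U.toLeft⟩, ?_, Finset.toLeft_disjSum_toRight⟩
    rw [mem_clq] at hU
    rw [← (Finset.toLeft_disjSum_toRight : U.toLeft.disjSum U.toRight = U),
      isClique_full] at hU
    simp only [mem_sigma, mem_clq, mem_powerset]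
    refine ⟨hU.1, fun x hx => ?_⟩
    simp only [mem_filter, mem_univ, true_and]
    exact hU.2 x hx

lemma card_clq_iso {V W : Type*} [Fintype V] [Fintype W] (e : V ≃ W) (G : SimpleGraph W) :
    (clq (G.comap e)).card = (clq G).card := by
  classical
  apply Finset.card_bij (fun s _ => s.map e.toEmbedding)
  · intro s hs
    rw [mem_clq] at hs ⊢
    intro a ha b hb hab
    simp only [Finset.coe_map, Equiv.coe_toEmbedding, Set.mem_image, Finset.mem_coe] at ha hb
    obtain ⟨a, ha, rfl⟩ := ha
    obtain ⟨b, hb, rfl⟩ := hb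
    exact hs (Finset.mem_coe.2 ha) (Finset.mem_coe.2 hb) (fun h => hab (by rw [h]))
  · intro a _ b _ h
    exact Finset.map_injective _ h
  · intro t ht
    refine ⟨t.map e.symm.toEmbedding, ?_, ?_⟩
    · rw [mem_clq] at ht ⊢
      intro a ha b hb hab
      simp only [Finset.coe_map, Equiv.coe_toEmbedding, Set.mem_image, Finset.mem_coe] at ha hb
      obtain ⟨a, ha, rfl⟩ := ha
      obtain ⟨b, hb, rfl⟩ := hb
      simp only [SimpleGraph.comap_adj, Equiv.apply_symm_apply]
      exact ht (Finset.mem_coe.2 ha) (Finset.mem_coe.2 hb) (fun h => hab (by rw [h]))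
    · ext x
      simp

lemma attain_graph {K y h : ℕ} (a : Attain K y h) :
    ∃ G : SimpleGraph (Fin (K + y)), (clq G).card = 2 ^ K + h := by
  obtain ⟨Y, i, G, A, c, t⟩ := a
  have hc : Fintype.card (Fin K ⊕ Y) = K + y := by simp [c]
  let e : Fin (K + y) ≃ Fin K ⊕ Y := (Fintype.equivFinOfCardEq hc).symm
  refine ⟨(full G A).comap e, ?_⟩
  rw [card_clq_iso, card_clq_full, t]

end Pool.Agent.CliqueCount
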