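import Mathlib

set_option autoImplicit false

open Finset

namespace Pool.Agent.CliqueCount

/-- contribution of level `l` of the ramp to the exponent -/
def ramp (l : ℕ) : Option Bool → ℕ
  | none => 2 ^ (l + 1)
  | some true => 2 ^ l
  | some false => 0

open scoped Classical in
/-- number of toggles in `I` which are compatible with the partial word `σ` -/
noncomputable def tog {r : ℕ} (I : (Fin r → Bool) → Prop) (σ : Fin r → Option Bool) : ℕ :=
  (univ.filter fun β : Fin r → Bool => I β ∧ ∀ l b, σ l = some b → β l = b).card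

/-- total weight of the cliques through one encoding vertex -/
noncomputable def T (r s : ℕ) (I : (Fin r → Bool) → Prop) : ℕ :=
  ∑ σ : Fin r → Option Bool, 2 ^ (s + ∑ l : Fin r, ramp l (σ l) + tog I σ)

lemma sum_snoc {r : ℕ} (f : (Fin (r + 1) → Option Bool) → ℕ) :
    ∑ σ, f σ = ∑ o : Option Bool, ∑ σ : Fin r → Option Bool, f (Fin.snoc σ o) := by
  rw [← (Fin.snocEquiv (fun _ : Fin (r + 1) => Option Bool)).sum_comp, Fintype.sum_prod_type]
  rfl

lemma tog_snoc {r : ℕ} (I : (Fin (r + 1) → Bool) → Prop) (σ : Fin r → Option Bool) (b : Bool) :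
    tog I (Fin.snoc σ (some b) : Fin (r + 1) → Option Bool) =
      tog (fun β => I (Fin.snoc β b)) σ := by
  classical
  unfold tog
  symm
  apply Finset.card_nbij (fun β => (Fin.snoc β b : Fin (r + 1) → Bool))
  · intro β hβ
    simp only [mem_coe, mem_filter, mem_univ, true_and] at hβ ⊢
    refine ⟨hβ.1, ?_⟩
    intro l
    refine Fin.lastCases ?_ (fun i => ?_) l
    · intro b' h
      simpa using h
    · intro b' h
      simp only [Fin.snoc_castSucc] at h ⊢
      exact hβ.2 i b' h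
  · intro β _ β' _ h
    have := congrArg (fun f => Fin.init f) h
    simpa using this
  · intro β hβ
    simp only [mem_coe, mem_filter, mem_univ, true_and] at hβ
    have hlast : β (Fin.last r) = b := hβ.2 (Fin.last r) b (by simp)
    refine ⟨Fin.init β, ?_, ?_⟩
    · simp only [mem_coe, mem_filter, mem_univ, true_and]
      have e : (Fin.snoc (Fin.init β) b : Fin (r + 1) → Bool) = β := by
        rw [← hlast]; exact Fin.snoc_init_self β
      refine ⟨by rw [e]; exact hβ.1, ?_⟩
      intro l b' h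
      exact hβ.2 l.castSucc b' (by simpa using h)
    · simp only
      rw [← hlast]; exact Fin.snoc_init_self β

lemma T_succ (r s : ℕ) (I : (Fin (r + 1) → Bool) → Prop) :
    ∃ U : ℕ, T (r + 1) s I = T r s (fun β => I (Fin.snoc β false)) +
      T r (s + 2 ^ r) (fun β => I (Fin.snoc β true)) + 2 ^ (s + 2 ^ (r + 1)) * U := by
  unfold T
  rw [sum_snoc]
  refine ⟨∑ σ : Fin r → Option Bool, 2 ^ (∑ l : Fin r, ramp l (σ l) +
    tog I (Fin.snoc σ none : Fin (r + 1) → Option Bool)), ?_⟩
  rw [Fintype.sum_option, Fintype.sum_bool, Finset.mul_sum]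
  have h0 : ∀ σ : Fin r → Option Bool,
      2 ^ (s + ∑ l : Fin (r + 1), ramp l ((Fin.snoc σ none : Fin (r + 1) → Option Bool) l) +
        tog I (Fin.snoc σ none : Fin (r + 1) → Option Bool)) =
      2 ^ (s + 2 ^ (r + 1)) * 2 ^ (∑ l : Fin r, ramp l (σ l) +
    tog I (Fin.snoc σ none : Fin (r + 1) → Option Bool)) := by
    intro σ
    rw [Fin.sum_univ_castSucc, ← pow_add]
    congr 1
    simp [ramp]
    ring
  have h1 : ∀ (σ : Fin r → Option Bool),
      2 ^ (s + ∑ l : Fin (r + 1), ramp l ((Fin.snoc σ (some true) : Fin (r + 1) → Option Bool) l) +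
        tog I (Fin.snoc σ (some true) : Fin (r + 1) → Option Bool)) =
      2 ^ (s + 2 ^ r + ∑ l : Fin r, ramp l (σ l) + tog (fun β => I (Fin.snoc β true)) σ) := by
    intro σ
    rw [Fin.sum_univ_castSucc, tog_snoc]
    congr 1
    simp [ramp]
    ring
  have h2 : ∀ (σ : Fin r → Option Bool),
      2 ^ (s + ∑ l : Fin (r + 1), ramp l ((Fin.snoc σ (some false) : Fin (r + 1) → Option Bool) l) +
        tog I (Fin.snoc σ (some false) : Fin (r + 1) → Option Bool)) =
      2 ^ (s + ∑ l : Fin r, ramp l (σ l) + tog (fun β => I (Fin.snoc β false)) σ) := by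
    intro σ
    rw [Fin.sum_univ_castSucc, tog_snoc]
    congr 1
    simp [ramp]
  rw [Finset.sum_congr rfl (fun σ _ => h0 σ), Finset.sum_congr rfl (fun σ _ => h1 σ),
    Finset.sum_congr rfl (fun σ _ => h2 σ)]
  ring

/-- The encoder lemma. -/
theorem encode (r : ℕ) : ∀ (s : ℕ) (a : ℤ), ∃ I : (Fin r → Bool) → Prop,
    (T r s I : ℤ) ≡ 2 ^ s * a [ZMOD 2 ^ (s + 2 ^ r)] := by
  induction r with
  | zero =>
    intro s a
    rcases Int.even_or_odd a with ha | ha
    · refine ⟨fun _ => True, ?_⟩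
      obtain ⟨k, rfl⟩ := ha
      have : T 0 s (fun _ => True) = 2 ^ (s + 1) := by
        unfold T tog
        simp
      rw [this]
      have h : (2 : ℤ) ^ (s + 2 ^ 0) ∣ 2 ^ s * (k + k) - (2 ^ (s + 1) : ℕ) := by
        refine ⟨k - 1, ?_⟩
        push_cast
        ring
      exact (Int.modEq_iff_dvd.2 h)
    · refine ⟨fun _ => False, ?_⟩
      obtain ⟨k, rfl⟩ := ha
      have : T 0 s (fun _ => False) = 2 ^ s := by
        unfold T tog
        simp
      rw [this]
      have h : (2 : ℤ) ^ (s + 2 ^ 0) ∣ 2 ^ s * (2 * k + 1) - (2 ^ s : ℕ) := by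
        refine ⟨k, ?_⟩
        push_cast
        ring
      exact (Int.modEq_iff_dvd.2 h)
  | succ r ih =>
    intro s a
    obtain ⟨I0, h0⟩ := ih s a
    obtain ⟨c, hc⟩ := (Int.modEq_iff_dvd.1 h0)
    obtain ⟨I1, h1⟩ := ih (s + 2 ^ r) c
    obtain ⟨d, hd⟩ := (Int.modEq_iff_dvd.1 h1)
    refine ⟨fun β => if β (Fin.last r) = true then I1 (Fin.init β) else I0 (Fin.init β), ?_⟩
    obtain ⟨U, hU⟩ := T_succ r s
      (fun β => if β (Fin.last r) = true then I1 (Fin.init β) else I0 (Fin.init β))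
    rw [hU]
    simp only [Fin.snoc_last, Fin.init_snoc, Bool.false_eq_true, if_false, if_true]
    apply Int.modEq_iff_dvd.2
    refine ⟨d - U, ?_⟩
    have e1 : (2 : ℤ) ^ (s + 2 ^ r + 2 ^ r) = 2 ^ (s + 2 ^ (r + 1)) := by
      congr 1
      ring
    rw [e1] at hd
    push_cast
    have hc' : (2 : ℤ) ^ s * a = (T r s I0 : ℤ) + 2 ^ (s + 2 ^ r) * c := by linarith
    have hd' : (2 : ℤ) ^ (s + 2 ^ r) * c = (T r (s + 2 ^ r) I1 : ℤ) +
        2 ^ (s + 2 ^ (r + 1)) * d := by linarith
    rw [hc', hd']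
    ring

lemma sum_ramp_le (r : ℕ) (σ : Fin r → Option Bool) :
    ∑ l : Fin r, ramp l (σ l) + 2 ≤ 2 ^ (r + 1) := by
  induction r with
  | zero => simp
  | succ r ih =>
    rw [Fin.sum_univ_castSucc]
    have h := ih (fun l => σ l.castSucc)
    have h2 : ramp (Fin.last r) (σ (Fin.last r)) ≤ 2 ^ (r + 1) := by
      simp only [Fin.val_last]
      rcases σ (Fin.last r) with _ | b
      · simp [ramp]
      · cases b
        · simp [ramp]
        · simp only [ramp]
          exact Nat.pow_le_pow_right (by norm_num) (by omega)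
    have e : 2 ^ (r + 1 + 1) = 2 ^ (r + 1) + 2 ^ (r + 1) := by ring
    simp only [Fin.val_castSucc] at h ⊢
    omega

lemma tog_le {r : ℕ} (I : (Fin r → Bool) → Prop) (σ : Fin r → Option Bool) :
    tog I σ ≤ 2 ^ r := by
  classical
  unfold tog
  calc _ ≤ (univ : Finset (Fin r → Bool)).card := Finset.card_filter_le _ _
    _ = 2 ^ r := by simp

lemma T_le (r s : ℕ) (I : (Fin r → Bool) → Prop) :
    T r s I ≤ 3 ^ r * 2 ^ (s + 3 * 2 ^ r - 2) := by
  unfold T
  have : ∀ σ ∈ (univ : Finset (Fin r → Option Bool)),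
      2 ^ (s + ∑ l : Fin r, ramp l (σ l) + tog I σ) ≤ 2 ^ (s + 3 * 2 ^ r - 2) := by
    intro σ _
    apply Nat.pow_le_pow_right (by norm_num)
    have h1 := sum_ramp_le r σ
    have h2 := tog_le I σ
    have e : 2 ^ (r + 1) = 2 * 2 ^ r := by ring
    omega
  calc _ ≤ ∑ σ : Fin r → Option Bool, 2 ^ (s + 3 * 2 ^ r - 2) := Finset.sum_le_sum this
    _ = _ := by simp

end Pool.Agent.CliqueCount
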