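import Pool.Agent.CliqueCount.Attain

set_option autoImplicit false

open Finset

namespace Pool.Agent.CliqueCount

section Multi

variable {ι : Type*} [Fintype ι] [DecidableEq ι] {V : ι → Type*} [∀ i, Fintype (V i)]

open scoped Classical in
/-- the vertex set chosen by a partial transversal -/
noncomputable def supp (τ : ∀ i, Option (V i)) : Finset (Σ i, V i) :=
  univ.filter fun x => τ x.1 = some x.2

lemma mem_supp (τ : ∀ i, Option (V i)) (x : Σ i, V i) : x ∈ supp τ ↔ τ x.1 = some x.2 := by
  simp [supp]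

lemma supp_injective : Function.Injective (supp : (∀ i, Option (V i)) → Finset (Σ i, V i)) := by
  intro τ τ' h
  funext i
  rcases hi : τ i with _ | v
  · rcases hi' : τ' i with _ | v'
    · rfl
    · have h1 : (⟨i, v'⟩ : Σ i, V i) ∈ supp τ' := by rw [mem_supp]; exact hi'
      rw [← h, mem_supp] at h1
      simp only at h1
      rw [hi] at h1
      cases h1
  · have h1 : (⟨i, v⟩ : Σ i, V i) ∈ supp τ := by rw [mem_supp]; exact hi
    rw [h, mem_supp] at h1
    exact h1.symm

lemma sum_clq_multi (F : Finset (Σ i, V i) → ℕ) :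
    ∑ S ∈ clq (SimpleGraph.completeMultipartiteGraph V), F S =
      ∑ τ : ∀ i, Option (V i), F (supp τ) := by
  classical
  symm
  apply Finset.sum_nbij supp
  · intro τ _
    rw [mem_clq]
    intro x hx y hy hxy
    rw [Finset.mem_coe, mem_supp] at hx hy
    simp only [SimpleGraph.completeMultipartiteGraph, SimpleGraph.comap_adj,
      SimpleGraph.top_adj, ne_eq]
    intro h
    apply hxy
    obtain ⟨i, v⟩ := x
    obtain ⟨j, w⟩ := y
    simp only at h hx hy
    subst h
    rw [hx] at hy
    simp only [Option.some.injEq] at hy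
    rw [hy]
  · intro τ _ τ' _ h
    exact supp_injective h
  · intro S hS
    rw [Finset.mem_coe, mem_clq] at hS
    refine ⟨fun i => if h : ∃ v, (⟨i, v⟩ : Σ i, V i) ∈ S then some h.choose else none,
      by simp, ?_⟩
    ext ⟨i, v⟩
    rw [mem_supp]
    simp only
    constructor
    · intro h
      split_ifs at h with h'
      have := h'.choose_spec
      simp only [Option.some.injEq] at h
      rw [h] at this
      exact this
    · intro h
      have h' : ∃ v, (⟨i, v⟩ : Σ i, V i) ∈ S := ⟨v, h⟩
      rw [dif_pos h']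
      by_contra hne
      have hne' : h'.choose ≠ v := fun e => hne (by rw [e])
      have := hS (Finset.mem_coe.2 h'.choose_spec) (Finset.mem_coe.2 h)
        (by intro e; apply hne'; simpa using e)
      simp [SimpleGraph.completeMultipartiteGraph] at this
  · intro τ _
    rfl

end Multi

/-- Parts of the selector structure. -/
def Part (r t : ℕ) : Option (Fin r) → Type
  | none => Fin t
  | some _ => Bool

instance (r t : ℕ) (i : Option (Fin r)) : Fintype (Part r t i) := by
  cases i
  · exact (inferInstance : Fintype (Fin t))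
  · exact (inferInstance : Fintype Bool)

/-- the clique side -/
abbrev XX (r m : ℕ) : Type := (Fin r → Bool) ⊕ ((Σ l : Fin r, Fin (2 ^ ((l : ℕ) + 1))) ⊕ Fin m)

/-- adjacency of the encoding vertices -/
def adjV {r t m : ℕ} (s : Fin t → ℕ) (I : Fin t → (Fin r → Bool) → Prop) (j : Fin t) :
    XX r m → Prop
  | .inl β => I j β
  | .inr (.inl _) => True
  | .inr (.inr z) => (z : ℕ) < s j

/-- adjacency of the selector vertices -/
def adjW {r m : ℕ} (l : Fin r) (b : Bool) : XX r m → Prop
  | .inl β => β l = b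
  | .inr (.inl p) => p.1 ≠ l ∨ (b = true ∧ (p.2 : ℕ) < 2 ^ (l : ℕ))
  | .inr (.inr _) => True

/-- adjacency between the selector structure and the clique -/
def adjA {r t m : ℕ} (s : Fin t → ℕ) (I : Fin t → (Fin r → Bool) → Prop) :
    (Σ i, Part r t i) → XX r m → Prop
  | ⟨none, j⟩ => adjV s I j
  | ⟨some l, b⟩ => adjW l b

/-- the partial transversal given by a pair -/
def mkτ {r t : ℕ} (o : Option (Fin t)) (σ : Fin r → Option Bool) :
    ∀ i, Option (Part r t i)
  | none => o
  | some l => σ l

lemma forall_supp {r t m : ℕ} (s : Fin t → ℕ) (I : Fin t → (Fin r → Bool) → Prop)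
    (o : Option (Fin t)) (σ : Fin r → Option Bool) (x : XX r m) :
    (∀ y ∈ supp (mkτ o σ), adjA s I y x) ↔
      (∀ j : Fin t, o = some j → adjV s I j x) ∧
      (∀ (l : Fin r) (b : Bool), σ l = some b → adjW l b x) := by
  constructor
  · intro h
    refine ⟨fun j hj => h ⟨none, j⟩ ?_, fun l b hb => h ⟨some l, b⟩ ?_⟩
    · rw [mem_supp]; exact hj
    · rw [mem_supp]; exact hb
  · rintro ⟨h1, h2⟩ ⟨i, v⟩ hy
    rw [mem_supp] at hy
    rcases i with _ | l
    · exact h1 v hy
    · exact h2 l v hy

lemma sum_ramp_total (r : ℕ) : ∑ l : Fin r, 2 ^ ((l : ℕ) + 1) + 2 = 2 ^ (r + 1) := by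
  induction r with
  | zero => simp
  | succ r ih =>
    rw [Fin.sum_univ_castSucc]
    simp only [Fin.val_castSucc, Fin.val_last]
    have e : 2 ^ (r + 1 + 1) = 2 ^ (r + 1) + 2 ^ (r + 1) := by ring
    omega

lemma card_XX (r m : ℕ) : Fintype.card (XX r m) + 2 = 3 * 2 ^ r + m := by
  simp only [Fintype.card_sum, Fintype.card_fun, Fintype.card_bool, Fintype.card_fin,
    Fintype.card_sigma]
  have := sum_ramp_total r
  have e : 2 ^ (r + 1) = 2 * 2 ^ r := by ring
  omega

open scoped Classical in
lemma level_count (l : ℕ) (o : Option Bool) :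
    (∑ x : Fin (2 ^ (l + 1)), if (∀ b, o = some b → (b = true ∧ (x : ℕ) < 2 ^ l)) then 1 else 0)
      = ramp l o := by
  rcases o with _ | b
  · simp [ramp]
  · cases b
    · simp [ramp]
    · have h : ∀ x : Fin (2 ^ (l + 1)), (∀ b, (some true : Option Bool) = some b →
          (b = true ∧ (x : ℕ) < 2 ^ l)) ↔ (x : ℕ) < 2 ^ l := by
        intro x
        constructor
        · intro h; exact (h true rfl).2
        · intro h b hb
          simp only [Option.some.injEq] at hb
          exact ⟨hb.symm, h⟩
      simp only [h]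
      rw [← Finset.card_filter, Fin.card_filter_val_lt]
      simp only [ramp]
      apply min_eq_right
      exact Nat.pow_le_pow_right (by norm_num) (by omega)

/-- the shift -/
def shiftOf {t : ℕ} (m : ℕ) (s : Fin t → ℕ) : Option (Fin t) → ℕ
  | none => m
  | some j => s j

/-- the toggles -/
def togsOf {r t : ℕ} (I : Fin t → (Fin r → Bool) → Prop) : Option (Fin t) → (Fin r → Bool) → Prop
  | none => fun _ => True
  | some j => I j

/-- common neighbours for a partial transversal through vertex `o` of `V`. -/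
lemma cnt_supp {r t m : ℕ} (s : Fin t → ℕ) (I : Fin t → (Fin r → Bool) → Prop)
    (hs : ∀ j, s j ≤ m) (o : Option (Fin t)) (σ : Fin r → Option Bool) :
    cnt (adjA (m := m) s I) (supp (mkτ o σ)) =
      shiftOf m s o + ∑ l : Fin r, ramp l (σ l) + tog (togsOf I o) σ := by
  classical
  unfold cnt
  rw [Finset.card_filter, Fintype.sum_sum_type, Fintype.sum_sum_type, Fintype.sum_sigma]
  have e1 : (∑ β : Fin r → Bool,
      if (∀ y ∈ supp (mkτ o σ), adjA (m := m) s I y (.inl β)) then 1 else 0) =
      tog (togsOf I o) σ := by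
    rw [← Finset.card_filter]
    unfold tog
    congr 1
    ext β
    simp only [mem_filter, mem_univ, true_and, forall_supp]
    apply and_congr
    · rcases o with _ | j
      · simp [togsOf]
      · simp [adjV, togsOf]
    · simp only [adjW]
  have e2 : (∑ l : Fin r, ∑ x : Fin (2 ^ ((l : ℕ) + 1)),
      if (∀ y ∈ supp (mkτ o σ), adjA (m := m) s I y (.inr (.inl ⟨l, x⟩))) then 1 else 0) =
      ∑ l : Fin r, ramp l (σ l) := by
    apply Finset.sum_congr rfl
    intro l _
    rw [← level_count]
    apply Finset.sum_congr rfl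
    intro x _
    congr 1
    rw [forall_supp]
    simp only [adjV, adjW, implies_true, true_and, eq_iff_iff]
    constructor
    · intro h b hb
      rcases h l b hb with h | h
      · exact absurd rfl h
      · exact h
    · intro h l' b hb
      by_cases hl : l = l'
      · subst hl
        exact Or.inr (h b hb)
      · exact Or.inl hl
  have e3 : (∑ z : Fin m,
      if (∀ y ∈ supp (mkτ o σ), adjA (m := m) s I y (.inr (.inr z))) then 1 else 0) =
      shiftOf m s o := by
    rw [← Finset.card_filter]
    have : ∀ z : Fin m, (∀ y ∈ supp (mkτ o σ), adjA (m := m) s I y (.inr (.inr z))) ↔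
        (∀ j : Fin t, o = some j → (z : ℕ) < s j) := by
      intro z
      rw [forall_supp]
      simp [adjV, adjW]
    simp only [this]
    rcases o with _ | j
    · simp [shiftOf]
    · simp only [Option.some.injEq, forall_eq', shiftOf]
      rw [Fin.card_filter_val_lt]
      exact min_eq_right (hs j)
  have e4 : (∑ β : Fin r → Bool,
      if (∀ y ∈ supp (mkτ o σ), adjA (m := m) s I y (.inl β)) then 1 else 0) +
      ((∑ l : Fin r, ∑ x : Fin (2 ^ ((l : ℕ) + 1)),
      if (∀ y ∈ supp (mkτ o σ), adjA (m := m) s I y (.inr (.inl ⟨l, x⟩))) then 1 else 0) +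
      (∑ z : Fin m,
      if (∀ y ∈ supp (mkτ o σ), adjA (m := m) s I y (.inr (.inr z))) then 1 else 0)) =
      shiftOf m s o + ∑ l : Fin r, ramp l (σ l) + tog (togsOf I o) σ := by
    rw [e1, e2, e3]
    ring
  convert e4

theorem tot_group {r t m : ℕ} (s : Fin t → ℕ) (I : Fin t → (Fin r → Bool) → Prop)
    (hs : ∀ j, s j ≤ m) :
    tot (SimpleGraph.completeMultipartiteGraph (Part r t)) (adjA (m := m) s I) =
      T r m (fun _ => True) + ∑ j, T r (s j) (I j) := by
  classical
  unfold tot
  rw [sum_clq_multi]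
  have h1 : ∑ τ : ∀ i, Option (Part r t i), 2 ^ cnt (adjA (m := m) s I) (supp τ) =
      ∑ p : Option (Fin t) × (Fin r → Option Bool),
        2 ^ cnt (adjA (m := m) s I) (supp (mkτ p.1 p.2)) := by
    symm
    apply Fintype.sum_bijective (fun p : Option (Fin t) × (Fin r → Option Bool) => mkτ p.1 p.2)
    · constructor
      · rintro ⟨o, σ⟩ ⟨o', σ'⟩ h
        have h1 := congrFun h none
        have h2 : ∀ l, mkτ o σ (some l) = mkτ o' σ' (some l) := fun l => congrFun h (some l)
        simp only [mkτ] at h1 h2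
        rw [Prod.mk.injEq]
        exact ⟨h1, funext h2⟩
      · intro τ
        refine ⟨⟨τ none, fun l => τ (some l)⟩, ?_⟩
        funext i
        rcases i with _ | l <;> rfl
    · intro p; rfl
  rw [h1, Fintype.sum_prod_type]
  simp only [cnt_supp s I hs]
  rw [Fintype.sum_option]
  rfl

lemma tog_true_le {r : ℕ} (σ : Fin (r + 1) → Option Bool) (l : Fin (r + 1)) (b : Bool)
    (h : σ l = some b) : tog (fun _ => True) σ ≤ 2 ^ r := by
  classical
  unfold tog
  have h1 : (univ.filter fun β : Fin (r + 1) → Bool => True ∧ ∀ l b, σ l = some b → β l = b) ⊆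
      univ.filter (fun β => β l = b) := by
    intro β hβ
    simp only [mem_filter, mem_univ, true_and] at hβ ⊢
    exact hβ l b h
  have h2 : (univ.filter (fun β : Fin (r + 1) → Bool => β l = b)).card ≤
      (univ.filter (fun β : Fin (r + 1) → Bool => ¬ (β l = b))).card := by
    apply Finset.card_le_card_of_injOn (fun β => Function.update β l (!b))
    · intro β hβ
      simp
    · intro β hβ β' hβ' hu
      simp only [coe_filter, mem_univ, true_and, Set.mem_ofPred_eq] at hβ hβ'
      funext i
      by_cases hi : i = l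
      · subst hi; rw [hβ, hβ']
      · have := congrFun hu i
        simpa [Function.update, hi] using this
  have h3 := Finset.card_filter_add_card_filter_not (s := (univ : Finset (Fin (r + 1) → Bool)))
    (fun β => β l = b)
  have h4 : (univ : Finset (Fin (r + 1) → Bool)).card = 2 ^ (r + 1) := by simp
  have h5 := Finset.card_le_card h1
  rw [h4] at h3
  have e : 2 ^ (r + 1) = 2 * 2 ^ r := by ring
  have h6 : (univ.filter (fun β : Fin (r + 1) → Bool => β l = b)).card ≤ 2 ^ r := by omega
  refine le_trans (le_of_eq ?_) (h5.trans h6)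
  congr!

lemma two_mul_le {r : ℕ} (hr : 3 ≤ r) : 2 * (r + 1) ≤ 2 ^ r := by
  induction r, hr using Nat.le_induction with
  | base => norm_num
  | succ k hk ih =>
    have e : 2 ^ (k + 1) = 2 * 2 ^ k := by ring
    omega

lemma T_true_le {r m : ℕ} (hr : 3 ≤ r) :
    T (r + 1) m (fun _ => True) ≤ 2 ^ (3 * 2 ^ (r + 1) - 2 + m) + 2 ^ (3 * 2 ^ (r + 1) - 2 + m) := by
  classical
  unfold T
  rw [← Finset.add_sum_erase _ _ (Finset.mem_univ (fun _ => none : Fin (r + 1) → Option Bool))]
  apply add_le_add
  · apply Nat.pow_le_pow_right (by norm_num)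
    have h1 : ∑ l : Fin (r + 1), ramp l (none : Option Bool) + 2 ≤ 2 ^ (r + 1 + 1) :=
      sum_ramp_le (r + 1) (fun _ => none)
    have h2 := tog_le (fun _ => True) (fun _ => none : Fin (r + 1) → Option Bool)
    have e : 2 ^ (r + 1 + 1) = 2 * 2 ^ (r + 1) := by ring
    show m + ∑ l : Fin (r + 1), ramp l (none : Option Bool) + tog (fun _ => True)
      (fun _ => none : Fin (r + 1) → Option Bool) ≤ _
    omega
  · have hb : ∀ σ ∈ univ.erase (fun _ => none : Fin (r + 1) → Option Bool),
        2 ^ (m + ∑ l : Fin (r + 1), ramp l (σ l) + tog (fun _ => True) σ) ≤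
          2 ^ (5 * 2 ^ r - 2 + m) := by
      intro σ hσ
      have hne : σ ≠ fun _ => none := Finset.ne_of_mem_erase hσ
      have : ∃ l b, σ l = some b := by
        by_contra hcon
        push Not at hcon
        apply hne
        funext l
        rcases h : σ l with _ | b
        · rfl
        · exact absurd h (hcon l b)
      obtain ⟨l, b, hl⟩ := this
      apply Nat.pow_le_pow_right (by norm_num)
      have h1 := sum_ramp_le (r + 1) σ
      have h2 := tog_true_le σ l b hl
      have e : 2 ^ (r + 1 + 1) = 4 * 2 ^ r := by ring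
      have e2 : 1 ≤ 2 ^ r := Nat.one_le_two_pow
      omega
    refine (Finset.sum_le_sum hb).trans ?_
    rw [Finset.sum_const, smul_eq_mul]
    have hc : (univ.erase (fun _ => none : Fin (r + 1) → Option Bool)).card ≤ 2 ^ (2 ^ r) := by
      calc _ ≤ (univ : Finset (Fin (r + 1) → Option Bool)).card := Finset.card_erase_le
        _ = 3 ^ (r + 1) := by simp
        _ ≤ 4 ^ (r + 1) := Nat.pow_le_pow_left (by norm_num) _
        _ = 2 ^ (2 * (r + 1)) := by rw [pow_mul]; norm_num
        _ ≤ 2 ^ (2 ^ r) := by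
          apply Nat.pow_le_pow_right (by norm_num)
          exact two_mul_le hr
    calc _ ≤ 2 ^ (2 ^ r) * 2 ^ (5 * 2 ^ r - 2 + m) := Nat.mul_le_mul_right _ hc
      _ = 2 ^ (3 * 2 ^ (r + 1) - 2 + m) := by
        rw [← pow_add]
        congr 1
        have e2 : 1 ≤ 2 ^ r := Nat.one_le_two_pow
        have e : 2 ^ (r + 1) = 2 * 2 ^ r := by ring
        omega

lemma le_T_true (r m : ℕ) : 2 ^ (3 * 2 ^ r - 2 + m) ≤ T r m (fun _ => True) := by
  classical
  unfold T
  have h := Finset.single_le_sum (f := fun σ : Fin r → Option Bool =>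
    2 ^ (m + ∑ l : Fin r, ramp l (σ l) + tog (fun _ => True) σ)) (fun _ _ => Nat.zero_le _)
    (Finset.mem_univ (fun _ => none : Fin r → Option Bool))
  refine le_trans ?_ h
  apply Nat.pow_le_pow_right (by norm_num)
  have h1 := sum_ramp_total r
  have h2 : tog (fun _ => True) (fun _ => none : Fin r → Option Bool) = 2 ^ r := by
    simp [tog]
  rw [h2]
  simp only [ramp]
  have e : 2 ^ (r + 1) = 2 * 2 ^ r := by ring
  omega

/-- the contribution of the selectors alone -/
noncomputable def Hc (r K : ℕ) : ℕ := T r (K - (3 * 2 ^ r - 2)) (fun _ => True) - 2 ^ K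

lemma Hc_le {r K : ℕ} (hr : 4 ≤ r) (hK : 3 * 2 ^ r - 2 ≤ K) : Hc r K ≤ 2 ^ K := by
  obtain ⟨q, rfl⟩ : ∃ q, r = q + 1 := ⟨r - 1, by omega⟩
  have h := T_true_le (r := q) (m := K - (3 * 2 ^ (q + 1) - 2)) (by omega)
  have e : 3 * 2 ^ (q + 1) - 2 + (K - (3 * 2 ^ (q + 1) - 2)) = K := by omega
  rw [e] at h
  unfold Hc
  omega

theorem attain_group {r t K : ℕ} (s : Fin t → ℕ) (I : Fin t → (Fin r → Bool) → Prop)
    (hK : 3 * 2 ^ r - 2 ≤ K) (hs : ∀ j, s j + (3 * 2 ^ r - 2) ≤ K) :
    Attain K (2 * r + t) (Hc r K + ∑ j, T r (s j) (I j)) := by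
  classical
  obtain ⟨m, rfl⟩ : ∃ m, K = (3 * 2 ^ r - 2) + m := ⟨K - (3 * 2 ^ r - 2), by omega⟩
  have hs' : ∀ j, s j ≤ m := fun j => by have := hs j; omega
  apply attain_of (SimpleGraph.completeMultipartiteGraph (Part r t)) (adjA (m := m) s I)
  · have := card_XX r m
    have e2 : 1 ≤ 2 ^ r := Nat.one_le_two_pow
    omega
  · rw [Fintype.card_sigma, Fintype.sum_option]
    show Fintype.card (Fin t) + ∑ i : Fin r, Fintype.card Bool = 2 * r + t
    simp
    ring
  · rw [tot_group s I hs']
    have h := le_T_true r m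
    unfold Hc
    have e : (3 * 2 ^ r - 2) + m - (3 * 2 ^ r - 2) = m := by omega
    rw [e]
    omega

end Pool.Agent.CliqueCount
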