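import Pool.Agent.CliqueCount.Reach

set_option autoImplicit false

open Finset

namespace Pool.Agent.CliqueCount

lemma Reach.mono {K S y B B' : ℕ} (h : Reach K S y B) (hB : B ≤ B') : Reach K S y B' := by
  intro τ
  obtain ⟨h0, a, b, c⟩ := h τ
  exact ⟨h0, a, b, c.trans hB⟩

lemma reach_next {K S y r a : ℕ} (hr : 4 ≤ r) (hK : 3 * 2 ^ r - 2 ≤ K)
    (h : Reach K S y (y * 2 ^ K)) (hS : S ≤ K) (hΔ : K - S < 4 * 2 ^ (r + a)) :
    ∃ S' y', Reach K S' y' (y' * 2 ^ K) ∧ S' ≤ K ∧ K - S' < 4 * 2 ^ r ∧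
      y' ≤ y + (2 * r + 4 * 2 ^ a) := by
  have hp : 0 < 2 ^ r := by positivity
  set D := (K - S) / 2 ^ r with hD
  have h1 : D * 2 ^ r ≤ K - S := Nat.div_mul_le_self _ _
  have h2 : K - S < (D + 1) * 2 ^ r := by
    have := Nat.lt_mul_div_succ (K - S) hp
    rw [← hD] at this
    linarith
  have h3 : D < 4 * 2 ^ a := by
    rw [hD, Nat.div_lt_iff_lt_mul hp]
    calc K - S < 4 * 2 ^ (r + a) := hΔ
      _ = 4 * 2 ^ a * 2 ^ r := by rw [pow_add]; ring
  clear_value D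
  have h4 : (D - 3 = 0) ∨ S + (D - 3 + 3) * 2 ^ r ≤ K := by
    by_cases hD3 : D ≤ 3
    · left; omega
    · right
      have e : D - 3 + 3 = D := by omega
      rw [e]
      omega
  have hstep := reach_step hr hK h h4
  refine ⟨S + (D - 3) * 2 ^ r, y + (2 * r + (D - 3)), hstep.mono ?_, ?_, ?_, ?_⟩
  · have : 1 + (D - 3) ≤ 2 * r + (D - 3) := by omega
    calc y * 2 ^ K + (1 + (D - 3)) * 2 ^ K ≤ y * 2 ^ K + (2 * r + (D - 3)) * 2 ^ K :=
          Nat.add_le_add_left (Nat.mul_le_mul_right _ this) _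
      _ = _ := by ring
  · rcases h4 with h | h
    · rw [h]; simpa using hS
    · have : (D - 3) * 2 ^ r ≤ (D - 3 + 3) * 2 ^ r := Nat.mul_le_mul_right _ (by omega)
      omega
  · rcases h4 with h | h
    · rw [h]
      have : D ≤ 3 := by omega
      have h6 : (D + 1) * 2 ^ r ≤ (3 + 1) * 2 ^ r := Nat.mul_le_mul_right _ (by omega)
      simp only [zero_mul, add_zero]
      omega
    · by_cases hD3 : D ≤ 3
      · have e : D - 3 = 0 := by omega
        rw [e]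
        have h6 : (D + 1) * 2 ^ r ≤ (3 + 1) * 2 ^ r := Nat.mul_le_mul_right _ (by omega)
        simp only [zero_mul, add_zero]
        omega
      · have e : (D + 1) * 2 ^ r = (D - 3) * 2 ^ r + 4 * 2 ^ r := by
          rw [← add_mul]
          congr 1
          omega
        omega
  · omega

lemma reach_iter {K a Q : ℕ} (h1 : 4 * 2 ^ (4 + a * Q) ≤ K)
    (h2 : K < 4 * 2 ^ (4 + a * (Q + 1))) : ∀ i, i ≤ Q → ∃ S y, Reach K S y (y * 2 ^ K) ∧
      S ≤ K ∧ K - S < 4 * 2 ^ (4 + a * (Q - i)) ∧ y ≤ (i + 1) * (2 * (4 + a * Q) + 4 * 2 ^ a) := by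
  intro i
  induction i with
  | zero =>
    intro _
    have h0 : Reach K 0 0 (0 * 2 ^ K) := by simpa using reach_zero K
    obtain ⟨S', y', p1, p2, p3, p4⟩ := reach_next (r := 4 + a * Q) (a := a) (by omega) (by omega)
      h0 (by omega) (by
        have : 4 + a * Q + a = 4 + a * (Q + 1) := by ring
        rw [this]
        omega)
    exact ⟨S', y', p1, p2, p3, by omega⟩
  | succ i ih =>
    intro hi
    obtain ⟨S, y, q1, q2, q3, q4⟩ := ih (by omega)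
    have hpow : 2 ^ (4 + a * (Q - (i + 1))) ≤ 2 ^ (4 + a * Q) :=
      Nat.pow_le_pow_right (by norm_num) (by
        have : a * (Q - (i + 1)) ≤ a * Q := Nat.mul_le_mul_left _ (by omega)
        omega)
    have hle : a * (Q - (i + 1)) ≤ a * Q := Nat.mul_le_mul_left _ (by omega)
    obtain ⟨S', y', p1, p2, p3, p4⟩ := reach_next (r := 4 + a * (Q - (i + 1))) (a := a)
      (by omega) (by omega) q1 q2 (by
        have e : 4 + a * (Q - (i + 1)) + a = 4 + a * (Q - i) := by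
          have : Q - i = (Q - (i + 1)) + 1 := by omega
          rw [this]; ring
        rw [e]
        exact q3)
    refine ⟨S', y', p1, p2, p3, ?_⟩
    have e : (i + 1 + 1) * (2 * (4 + a * Q) + 4 * 2 ^ a) =
      (i + 1) * (2 * (4 + a * Q) + 4 * 2 ^ a) + (2 * (4 + a * Q) + 4 * 2 ^ a) := by ring
    rw [e]
    omega

lemma cost_le {L A Q : ℕ} (hA : 1 ≤ A) (hAL : 2 ^ A ≤ L) (hQ : A * Q ≤ L) :
    (Q + 1) * (2 * (4 + A * Q) + 4 * 2 ^ A) ≤ 28 * L ^ 2 / A := by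
  rw [Nat.le_div_iff_mul_le (by omega)]
  have hAlt : A < 2 ^ A := Nat.lt_two_pow_self
  have h1 : (Q + 1) * A ≤ 2 * L := by nlinarith
  have h2 : 2 * (4 + A * Q) + 4 * 2 ^ A ≤ 14 * L := by omega
  calc (Q + 1) * (2 * (4 + A * Q) + 4 * 2 ^ A) * A
      = ((Q + 1) * A) * (2 * (4 + A * Q) + 4 * 2 ^ A) := by ring
    _ ≤ (2 * L) * (14 * L) := Nat.mul_le_mul h1 h2
    _ = 28 * L ^ 2 := by ring

lemma exists_Q {K a : ℕ} (ha : 1 ≤ a) (hK : 64 ≤ K) :
    ∃ Q, 4 * 2 ^ (4 + a * Q) ≤ K ∧ K < 4 * 2 ^ (4 + a * (Q + 1)) := by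
  by_contra hcon
  push Not at hcon
  have : ∀ Q, 4 * 2 ^ (4 + a * Q) ≤ K := by
    intro Q
    induction Q with
    | zero => simpa using hK
    | succ Q ih => exact hcon Q ih
  have h := this K
  have h2 : K < 2 ^ K := Nat.lt_two_pow_self
  have h3 : 2 ^ K ≤ 2 ^ (4 + a * K) := Nat.pow_le_pow_right (by norm_num) (by nlinarith)
  omega

/-- large values -/
theorem lower_large {n N L A : ℕ} (hL : n < 2 ^ (L + 1)) (hA : 1 ≤ A) (hAL : 2 ^ A ≤ L)
    (hN1 : N + 1 ≤ 2 ^ (n - (5 * (28 * L ^ 2 / A) + 75)))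
    (hw : 5 * (28 * L ^ 2 / A) + 75 ≤ n)
    (hN2 : (n + 2 ^ 64) * (2 * (28 * L ^ 2 / A + 3)) ≤ N + 1) :
    ∃ G : SimpleGraph (Fin n), (clq G).card = N + 1 := by
  set Y := 28 * L ^ 2 / A with hY
  clear_value Y
  set k := Nat.log 2 (N + 1) with hk
  have hk1 : 2 ^ k ≤ N + 1 := Nat.pow_log_le_self 2 (by omega)
  have hk2 : N + 1 < 2 ^ (k + 1) := Nat.lt_pow_succ_log_self (by norm_num) _
  clear_value k
  obtain ⟨x, hx1, hx2⟩ : ∃ x, Y + 3 < 2 ^ x ∧ 2 ^ x ≤ 2 * (Y + 3) := by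
    refine ⟨Nat.log 2 (Y + 3) + 1, Nat.lt_pow_succ_log_self (by norm_num) _, ?_⟩
    rw [pow_succ]
    have := Nat.pow_log_le_self 2 (x := Y + 3) (by omega)
    omega
  -- `2 ^ x * (n + 2 ^ 64) ≤ N + 1`
  have hx3 : 2 ^ x * (n + 2 ^ 64) ≤ N + 1 := by
    calc 2 ^ x * (n + 2 ^ 64) ≤ (2 * (Y + 3)) * (n + 2 ^ 64) := Nat.mul_le_mul_right _ hx2
      _ = (n + 2 ^ 64) * (2 * (Y + 3)) := by ring
      _ ≤ N + 1 := hN2
  have hkx : x + 64 ≤ k := by
    by_contra hcon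
    have h1 : 2 ^ (k + 1) ≤ 2 ^ (x + 64) := Nat.pow_le_pow_right (by norm_num) (by omega)
    have h2 : 2 ^ (x + 64) = 2 ^ x * 2 ^ 64 := pow_add _ _ _
    have h3 : 2 ^ x * 2 ^ 64 ≤ 2 ^ x * (n + 2 ^ 64) :=
      Nat.mul_le_mul_left _ (Nat.le_add_left _ _)
    exact absurd (hk2.trans_le (h1.trans (h2.le.trans (h3.trans hx3)))) (lt_irrefl _)
  obtain ⟨K, rfl⟩ : ∃ K, k = K + x := ⟨k - x, by omega⟩
  have hK64 : 64 ≤ K := by omega
  have hn2K : n ≤ 2 ^ (K + 1) := by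
    have h1 : 2 ^ x * n ≤ 2 ^ x * (n + 2 ^ 64) := Nat.mul_le_mul_left _ (Nat.le_add_right _ _)
    have h2 : 2 ^ (K + x + 1) = 2 ^ x * 2 ^ (K + 1) := by rw [← pow_add]; congr 1; ring
    have h3 : 2 ^ x * n < 2 ^ x * 2 ^ (K + 1) := by
      rw [← h2]
      exact (h1.trans hx3).trans_lt hk2
    exact (Nat.lt_of_mul_lt_mul_left h3).le
  have hkn : K + x ≤ n - (5 * Y + 75) := by
    have : 2 ^ (K + x) ≤ 2 ^ (n - (5 * Y + 75)) := hk1.trans hN1
    exact (Nat.pow_le_pow_iff_right (by norm_num)).1 this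
  obtain ⟨Q, hQ1, hQ2⟩ := exists_Q hA hK64
  obtain ⟨S, y, hR, hS, hΔ, hy⟩ := reach_iter hQ1 hQ2 Q le_rfl
  have hAQ : A * Q ≤ L := by
    have h1 : 2 ^ (4 + A * Q) < 2 ^ (L + 1) := by omega
    have := (Nat.pow_lt_pow_iff_right (by norm_num : 1 < 2)).1 h1
    omega
  have hyY : y ≤ Y := by
    rw [hY]
    exact hy.trans (cost_le hA hAL hAQ)
  have hΔ' : K - S < 64 := by simpa using hΔ
  have hdiv : (N + 1) / 2 ^ K < 2 * 2 ^ x := by
    rw [Nat.div_lt_iff_lt_mul (by positivity)]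
    calc N + 1 < 2 ^ (K + x + 1) := hk2
      _ = 2 * 2 ^ x * 2 ^ K := by rw [pow_succ, pow_add]; ring
  have hmain : (Y + 3) * 2 ^ K ≤ N + 1 := by
    calc (Y + 3) * 2 ^ K ≤ 2 ^ x * 2 ^ K := Nat.mul_le_mul_right _ hx1.le
      _ = 2 ^ (K + x) := by rw [pow_add]; ring
      _ ≤ N + 1 := hk1
  have hyK : y * 2 ^ K ≤ Y * 2 ^ K := Nat.mul_le_mul_right _ hyY
  have e1 : (Y + 3) * 2 ^ K = Y * 2 ^ K + 3 * 2 ^ K := by ring
  have e2 : 2 ^ (K + 1) = 2 * 2 ^ K := by ring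
  apply exists_graph hR hS
  · omega
  · omega
  · generalize (N + 1) / 2 ^ K = D at hdiv
    omega
  · omega

/-- small values -/
theorem lower_small {n N : ℕ} (hn : 40 ≤ n) (hN : n ≤ N) (hN2 : N + 1 ≤ 2 ^ (n / 8)) :
    ∃ G : SimpleGraph (Fin n), (clq G).card = N + 1 := by
  have hex : ∃ k, 1 ≤ k ∧ 2 ^ k + n ≤ N + 1 + k ∧ ¬ (2 ^ (k + 1) + n ≤ N + 1 + (k + 1)) := by
    by_contra hcon
    push Not at hcon
    have : ∀ k, 1 ≤ k → 2 ^ k + n ≤ N + 1 + k := by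
      intro k hk
      induction k, hk using Nat.le_induction with
      | base => norm_num; omega
      | succ k hk ih => exact hcon k hk ih
    have h1 := this (N + 3) (by omega)
    have h2 : ∀ m, 1 ≤ m → m + m ≤ 2 ^ m := by
      intro m hm
      induction m, hm using Nat.le_induction with
      | base => norm_num
      | succ k hk ih => rw [pow_succ]; omega
    have h3 := h2 (N + 3) (by omega)
    omega
  obtain ⟨k, hk0, hk1, hk2⟩ := hex
  have hkn : k ≤ n / 8 := by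
    have hlt : k < 2 ^ k := Nat.lt_two_pow_self
    by_contra hcon
    push Not at hcon
    -- k > n/4 : 2^k ≥ 2 * 2^(n/4)
    have h1 : 2 ^ (n / 8 + 1) ≤ 2 ^ k := Nat.pow_le_pow_right (by norm_num) hcon
    have h2 : 2 ^ (n / 8 + 1) = 2 * 2 ^ (n / 8) := by ring
    -- 2^k ≤ N+1+k-n, need k small relative
    have h3 : ∀ m, 1 ≤ m → m + m ≤ 2 ^ m := by
      intro m hm
      induction m, hm using Nat.le_induction with
      | base => norm_num
      | succ k hk ih => rw [pow_succ]; omega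
    have h4 := h3 k hk0
    omega
  have hR : Reach k 0 0 0 := reach_zero k
  push Not at hk2
  have e2 : 2 ^ (k + 1) = 2 * 2 ^ k := by ring
  have hp : 0 < 2 ^ k := by positivity
  have hdiv : (N + 1) / 2 ^ k ≤ 2 + n / 2 := by
    have : (N + 1) / 2 ^ k < 2 + n / 2 + 1 := by
      rw [Nat.div_lt_iff_lt_mul hp]
      have h5 : 2 ^ 1 ≤ 2 ^ k := Nat.pow_le_pow_right (by norm_num) hk0
      have h6 : (n / 2 + 1) * 2 ≤ (n / 2 + 1) * 2 ^ k := Nat.mul_le_mul_left _ (by omega)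
      have e : (2 + n / 2 + 1) * 2 ^ k = 2 * 2 ^ k + (n / 2 + 1) * 2 ^ k := by ring
      omega
    omega
  apply exists_graph hR (Nat.zero_le _)
  · omega
  · omega
  · generalize (N + 1) / 2 ^ k = D at hdiv
    omega
  · omega

end Pool.Agent.CliqueCount
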