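import Pool.Agent.CliqueCount.Upper4
import Pool.Agent.CliqueCount.Lower

set_option autoImplicit false

open Finset

namespace Pool.Agent.CliqueCount

/-- the width of the gap in the lower bound -/
def gapW (L A : ℕ) : ℕ := 5 * (28 * L ^ 2 / A) + 75

lemma big_pow {L : ℕ} (hL : 40 ≤ L) : 140 * L ^ 2 + 30 * L + 700 ≤ 2 ^ L := by
  induction L, hL using Nat.le_induction with
  | base => norm_num
  | succ k hk ih => rw [pow_succ 2 k]; nlinarith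

lemma gapW_le {n L A : ℕ} (hL1 : 2 ^ L ≤ n) (hL : 40 ≤ L) :
    gapW L A + 30 * L + 600 ≤ n := by
  have h1 := big_pow hL
  have h2 : 28 * L ^ 2 / A ≤ 28 * L ^ 2 := Nat.div_le_self _ _
  unfold gapW
  generalize 28 * L ^ 2 / A = D at *
  have h3 : 140 * L ^ 2 = 5 * (28 * L ^ 2) := by ring
  omega

lemma nat_fact {n L A : ℕ} (hL1 : 2 ^ L ≤ n) (hL2 : n < 2 ^ (L + 1)) (hL : 40 ≤ L) :
    (n + 2 ^ 64) * (2 * (28 * L ^ 2 / A + 3)) ≤ 2 ^ (n / 8) := by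
  have h2 : 28 * L ^ 2 / A ≤ 28 * L ^ 2 := Nat.div_le_self _ _
  have h3 := big_pow hL
  have h4 : 2 * (28 * L ^ 2 / A + 3) ≤ 2 ^ L := by
    have e : 140 * L ^ 2 = 5 * (28 * L ^ 2) := by ring
    omega
  have h5 : n + 2 ^ 64 ≤ 2 ^ (L + 1 + 64) := by
    rw [pow_add]
    have : 1 ≤ 2 ^ (L + 1) := Nat.one_le_two_pow
    nlinarith
  have h6 : L + 1 + 64 + L ≤ n / 8 := by
    rw [Nat.le_div_iff_mul_le (by norm_num)]
    refine le_trans ?_ (h3.trans hL1)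
    nlinarith
  calc (n + 2 ^ 64) * (2 * (28 * L ^ 2 / A + 3)) ≤ 2 ^ (L + 1 + 64) * 2 ^ L :=
        Nat.mul_le_mul h5 h4
    _ = 2 ^ (L + 1 + 64 + L) := by rw [pow_add 2 (L + 1 + 64) L]
    _ ≤ 2 ^ (n / 8) := Nat.pow_le_pow_right (by norm_num) h6

theorem interval_nat {n L A N : ℕ} (hL1 : 2 ^ L ≤ n) (hL2 : n < 2 ^ (L + 1)) (hA1 : 1 ≤ A)
    (hA2 : 2 ^ A ≤ L) (hL : 40 ≤ L) (hN : n ≤ N) (hN2 : N + 1 ≤ 2 ^ (n - gapW L A)) :
    ∃ G : SimpleGraph (Fin n), (clq G).card = N + 1 := by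
  have hW := gapW_le (A := A) hL1 hL
  by_cases h : N + 1 ≤ 2 ^ (n / 8)
  · exact lower_small (by omega) hN h
  · push Not at h
    have h1 := nat_fact (A := A) hL1 hL2 hL
    exact lower_large hL2 hA1 hA2 hN2 (by unfold gapW at hW; omega) (h1.trans h.le)

end Pool.Agent.CliqueCount
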