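import Pool.Agent.CliqueCount.Group

set_option autoImplicit false

open Finset

namespace Pool.Agent.CliqueCount

lemma enc_seq (r S : ℕ) (t : ℕ) : ∀ c : ℤ, ∃ I : Fin t → (Fin r → Bool) → Prop,
    ((∑ j : Fin t, T r (S + j * 2 ^ r) (I j) : ℕ) : ℤ) ≡ 2 ^ S * c [ZMOD 2 ^ (S + t * 2 ^ r)] := by
  induction t with
  | zero =>
    intro c
    refine ⟨fun j => j.elim0, ?_⟩
    apply Int.modEq_iff_dvd.2
    refine ⟨c, ?_⟩
    simp
  | succ t ih =>
    intro c
    obtain ⟨I, hI⟩ := ih c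
    obtain ⟨d, hd⟩ := Int.modEq_iff_dvd.1 hI
    obtain ⟨J, hJ⟩ := encode r (S + t * 2 ^ r) d
    obtain ⟨e, he⟩ := Int.modEq_iff_dvd.1 hJ
    refine ⟨Fin.snoc I J, ?_⟩
    rw [Fin.sum_univ_castSucc]
    simp only [Fin.snoc_castSucc, Fin.snoc_last, Fin.val_castSucc, Fin.val_last]
    apply Int.modEq_iff_dvd.2
    refine ⟨e, ?_⟩
    have e1 : S + (t + 1) * 2 ^ r = S + t * 2 ^ r + 2 ^ r := by ring
    rw [e1]
    push_cast at hd he ⊢
    linarith

/-- every target is reachable modulo `2 ^ S` with `y` vertices and total at most `B` -/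
def Reach (K S y B : ℕ) : Prop :=
  ∀ τ : ℤ, ∃ h : ℕ, Attain K y h ∧ (h : ℤ) ≡ τ [ZMOD 2 ^ S] ∧ h ≤ B

lemma reach_zero (K : ℕ) : Reach K 0 0 0 := by
  intro τ
  refine ⟨0, attain_zero K, ?_, le_rfl⟩
  apply Int.modEq_iff_dvd.2
  exact ⟨τ, by simp⟩

lemma T_le_pow {r s K : ℕ} (hr : 4 ≤ r) (h : s + 4 * 2 ^ r ≤ K) (I : (Fin r → Bool) → Prop) :
    T r s I ≤ 2 ^ K := by
  refine (T_le r s I).trans ?_
  have h1 : 3 ^ r ≤ 2 ^ (2 ^ r) := by
    calc 3 ^ r ≤ 4 ^ r := Nat.pow_le_pow_left (by norm_num) _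
      _ = 2 ^ (2 * r) := by rw [pow_mul]; norm_num
      _ ≤ 2 ^ (2 ^ r) := by
        apply Nat.pow_le_pow_right (by norm_num)
        have := two_mul_le (r := r) (by omega)
        omega
  calc 3 ^ r * 2 ^ (s + 3 * 2 ^ r - 2) ≤ 2 ^ (2 ^ r) * 2 ^ (s + 3 * 2 ^ r - 2) :=
        Nat.mul_le_mul_right _ h1
    _ = 2 ^ (2 ^ r + (s + 3 * 2 ^ r - 2)) := by rw [pow_add]
    _ ≤ 2 ^ K := by
      apply Nat.pow_le_pow_right (by norm_num)
      have := Nat.one_le_two_pow (n := r)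
      omega

lemma reach_step {K S y B r t : ℕ} (hr : 4 ≤ r) (hK : 3 * 2 ^ r - 2 ≤ K) (h : Reach K S y B)
    (hS : t = 0 ∨ S + (t + 3) * 2 ^ r ≤ K) :
    Reach K (S + t * 2 ^ r) (y + (2 * r + t)) (B + (1 + t) * 2 ^ K) := by
  intro τ
  obtain ⟨h0, a0, m0, b0⟩ := h (τ - Hc r K)
  obtain ⟨c, hc⟩ := Int.modEq_iff_dvd.1 m0
  obtain ⟨I, hI⟩ := enc_seq r S t c
  obtain ⟨d, hd⟩ := Int.modEq_iff_dvd.1 hI
  have hbd : ∀ j : Fin t, S + (j : ℕ) * 2 ^ r + 4 * 2 ^ r ≤ K := by
    intro j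
    rcases hS with h0 | h0
    · exact absurd j.2 (by omega)
    · have hj : (j : ℕ) + 1 ≤ t := j.2
      have : ((j : ℕ) + 1 + 3) * 2 ^ r ≤ (t + 3) * 2 ^ r := Nat.mul_le_mul_right _ (by omega)
      have e : ((j : ℕ) + 1 + 3) * 2 ^ r = j * 2 ^ r + 4 * 2 ^ r := by ring
      omega
  have ag := attain_group (K := K) (fun j : Fin t => S + (j : ℕ) * 2 ^ r) I hK (by
    intro j
    have := hbd j
    omega)
  refine ⟨h0 + (Hc r K + ∑ j : Fin t, T r (S + (j : ℕ) * 2 ^ r) (I j)),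
    attain_add a0 ag, ?_, ?_⟩
  · apply Int.modEq_iff_dvd.2
    refine ⟨d, ?_⟩
    push_cast at hd hc ⊢
    linarith
  · have h1 : ∑ j : Fin t, T r (S + (j : ℕ) * 2 ^ r) (I j) ≤ t * 2 ^ K := by
      calc _ ≤ ∑ j : Fin t, 2 ^ K := Finset.sum_le_sum (fun j _ => T_le_pow hr (hbd j) _)
        _ = t * 2 ^ K := by simp
    have h2 := Hc_le hr hK
    have e : (1 + t) * 2 ^ K = 2 ^ K + t * 2 ^ K := by ring
    omega

/-- `R` is a sum of `q` powers of two with exponents at most `K`. -/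
lemma attain_pows {K : ℕ} : ∀ (m : Multiset ℕ), (∀ e ∈ m, e ≤ K) →
    Attain K (Multiset.card m) (m.map (fun e => 2 ^ e)).sum := by
  intro m
  induction m using Multiset.induction_on with
  | empty => intro _; simpa using attain_zero K
  | cons a m ih =>
    intro h
    have h1 := ih (fun e he => h e (Multiset.mem_cons_of_mem he))
    have h2 := attain_single (h a (Multiset.mem_cons_self a m))
    have := attain_add h1 h2
    simpa [add_comm] using this

lemma split_step {K : ℕ} (m : Multiset ℕ) (hm : ∀ e ∈ m, e ≤ K)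
    (h : Multiset.card m < (m.map (fun e => 2 ^ e)).sum) :
    ∃ m' : Multiset ℕ, (∀ e ∈ m', e ≤ K) ∧ Multiset.card m' = Multiset.card m + 1 ∧
      (m'.map (fun e => 2 ^ e)).sum = (m.map (fun e => 2 ^ e)).sum := by
  have hex : ∃ e ∈ m, e ≠ 0 := by
    by_contra hcon
    push Not at hcon
    have : m.map (fun e => 2 ^ e) = Multiset.replicate (Multiset.card m) 1 := by
      rw [Multiset.eq_replicate]
      refine ⟨by simp, ?_⟩
      intro b hb
      rw [Multiset.mem_map] at hb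
      obtain ⟨a, ha, rfl⟩ := hb
      rw [hcon a ha]
      simp
    rw [this] at h
    simp at h
  obtain ⟨e, he, hne⟩ := hex
  obtain ⟨m₀, rfl⟩ := Multiset.exists_cons_of_mem he
  obtain ⟨f, rfl⟩ : ∃ f, e = f + 1 := ⟨e - 1, by omega⟩
  refine ⟨f ::ₘ f ::ₘ m₀, ?_, by simp, ?_⟩
  · intro a ha
    simp only [Multiset.mem_cons] at ha
    have hf : f + 1 ≤ K := hm _ (Multiset.mem_cons_self _ _)
    rcases ha with rfl | rfl | ha
    · omega
    · omega
    · exact hm a (Multiset.mem_cons_of_mem ha)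
  · simp only [Multiset.map_cons, Multiset.sum_cons]
    ring

lemma split_many {K : ℕ} (d : ℕ) : ∀ (m : Multiset ℕ), (∀ e ∈ m, e ≤ K) →
    (Multiset.card m + d ≤ (m.map (fun e => 2 ^ e)).sum) →
    ∃ m' : Multiset ℕ, (∀ e ∈ m', e ≤ K) ∧ Multiset.card m' = Multiset.card m + d ∧
      (m'.map (fun e => 2 ^ e)).sum = (m.map (fun e => 2 ^ e)).sum := by
  induction d with
  | zero => intro m hm _; exact ⟨m, hm, rfl, rfl⟩
  | succ d ih =>
    intro m hm h
    obtain ⟨m', h1, h2, h3⟩ := split_step m hm (by omega)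
    obtain ⟨m'', g1, g2, g3⟩ := ih m' h1 (by omega)
    exact ⟨m'', g1, by omega, by rw [g3, h3]⟩

/-- few powers of two suffice for multiples of `2 ^ S` -/
lemma few_pows (S : ℕ) : ∀ (d R : ℕ), R < 2 ^ (S + d) → 2 ^ S ∣ R →
    ∃ m : Multiset ℕ, (∀ e ∈ m, e ≤ S + d) ∧ Multiset.card m ≤ d ∧
      (m.map (fun e => 2 ^ e)).sum = R := by
  intro d
  induction d with
  | zero =>
    intro R hR hd
    have : R = 0 := Nat.eq_zero_of_dvd_of_lt hd hR
    exact ⟨0, by simp, by simp, by simp [this]⟩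
  | succ d ih =>
    intro R hR hd
    by_cases h : R < 2 ^ (S + d)
    · obtain ⟨m, h1, h2, h3⟩ := ih R h hd
      exact ⟨m, fun e he => by have := h1 e he; omega, by omega, h3⟩
    · push Not at h
      have e : 2 ^ (S + (d + 1)) = 2 ^ (S + d) + 2 ^ (S + d) := by
        rw [← add_assoc, pow_succ]; ring
      obtain ⟨m, h1, h2, h3⟩ := ih (R - 2 ^ (S + d)) (by omega)
        ((Nat.dvd_sub hd (pow_dvd_pow 2 (by omega))))
      refine ⟨(S + d) ::ₘ m, ?_, ?_, ?_⟩
      · intro a ha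
        rw [Multiset.mem_cons] at ha
        rcases ha with rfl | ha
        · omega
        · have := h1 a ha; omega
      · simp; omega
      · simp only [Multiset.map_cons, Multiset.sum_cons, h3]
        omega

lemma attain_rest {K S q R : ℕ} (hS : S ≤ K) (hd : 2 ^ S ∣ R)
    (h1 : (K - S) + R / 2 ^ K ≤ q) (h2 : q ≤ R) : Attain K q R := by
  have hmod : 2 ^ S ∣ R % 2 ^ K := by
    rw [Nat.dvd_mod_iff (pow_dvd_pow 2 hS)]
    exact hd
  obtain ⟨m, a1, a2, a3⟩ := few_pows S (K - S) (R % 2 ^ K)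
    (by
      have : S + (K - S) = K := by omega
      rw [this]
      exact Nat.mod_lt _ (by positivity)) hmod
  have hK : S + (K - S) = K := by omega
  rw [hK] at a1
  have hsum : ((m + Multiset.replicate (R / 2 ^ K) K).map (fun e => 2 ^ e)).sum = R := by
    rw [Multiset.map_add, Multiset.sum_add, a3, Multiset.map_replicate, Multiset.sum_replicate,
      smul_eq_mul]
    have := Nat.mod_add_div R (2 ^ K)
    rw [mul_comm] at this
    exact this
  have hcard : Multiset.card (m + Multiset.replicate (R / 2 ^ K) K) ≤ q := by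
    rw [Multiset.card_add, Multiset.card_replicate]
    omega
  obtain ⟨m', b1, b2, b3⟩ := split_many (K := K)
    (q - Multiset.card (m + Multiset.replicate (R / 2 ^ K) K))
    (m + Multiset.replicate (R / 2 ^ K) K) (by
      intro e he
      rw [Multiset.mem_add] at he
      rcases he with he | he
      · exact a1 e he
      · rw [Multiset.mem_replicate] at he
        omega) (by rw [hsum]; omega)
  have hq : Multiset.card m' = q := by omega
  have := attain_pows m' b1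
  rw [hq, b3, hsum] at this
  exact this

/-- Final assembly. -/
theorem exists_graph {K S y B n N : ℕ} (hR : Reach K S y B) (hS : S ≤ K)
    (hB : B ≤ N + 1 - 2 ^ K) (hN : 2 ^ K ≤ N + 1)
    (hq1 : K + y + (K - S) + (N + 1) / 2 ^ K ≤ n)
    (hq2 : n + B ≤ K + y + (N + 1 - 2 ^ K)) :
    ∃ G : SimpleGraph (Fin n), (clq G).card = N + 1 := by
  obtain ⟨h, a, hm, hb⟩ := hR ((N + 1 - 2 ^ K : ℕ) : ℤ)
  have hdv : 2 ^ S ∣ (N + 1 - 2 ^ K - h) := by
    have := Int.modEq_iff_dvd.1 hm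
    have e : (((N + 1 - 2 ^ K : ℕ) : ℤ) - (h : ℤ)) = ((N + 1 - 2 ^ K - h : ℕ) : ℤ) := by
      rw [Nat.cast_sub (n := N + 1 - 2 ^ K) (m := h) (by omega)]
    rw [e] at this
    exact_mod_cast this
  have hp : 1 ≤ 2 ^ K := Nat.one_le_two_pow
  have hdiv : (N + 1 - 2 ^ K - h) / 2 ^ K ≤ (N + 1) / 2 ^ K :=
    Nat.div_le_div_right (by omega)
  have ar := attain_rest (K := K) (q := n - K - y) hS hdv (by omega) (by omega)
  have := attain_add a ar
  obtain ⟨G, hG⟩ := attain_graph this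
  have hle : K + y ≤ n := by
    have h6 : K + y ≤ K + y + (K - S) + (N + 1) / 2 ^ K := by
      rw [add_assoc (K + y)]
      exact Nat.le_add_right _ _
    exact h6.trans hq1
  have e1 : K + (y + (n - K - y)) = n := by omega
  have key : ∃ G : SimpleGraph (Fin (K + (y + (n - K - y)))), (clq G).card = N + 1 :=
    ⟨G, by
      have h5 : h ≤ N + 1 - 2 ^ K := hb.trans hB
      rw [hG, Nat.add_sub_cancel' h5, Nat.add_sub_cancel' hN]⟩
  rwa [e1] at key

end Pool.Agent.CliqueCount
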