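import Pool.Agent.CliqueCount.Attain

set_option autoImplicit false

open Finset

namespace Pool.Agent.CliqueCount

section Cover

variable {V : Type*} [Fintype V] [DecidableEq V]

/-- number of cliques inside `U` -/
noncomputable def nIn (G : SimpleGraph V) (U : Finset V) : ℕ :=
  ((clq G).filter (fun s => s ⊆ U)).card

lemma nIn_le (G : SimpleGraph V) (U : Finset V) : nIn G U ≤ 2 ^ U.card := by
  rw [← Finset.card_powerset]
  apply Finset.card_le_card
  intro s hs
  rw [mem_filter] at hs
  rw [mem_powerset]
  exact hs.2

lemma nIn_step (G : SimpleGraph V) (U : Finset V) {u w : V} (huw : u ≠ w)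
    (hadj : ¬ G.Adj u w) : nIn G U ≤ 3 * nIn G ((U.erase u).erase w) := by
  classical
  have h3 : ({∅, {u}, {w}} : Finset (Finset V)).card ≤ 3 := Finset.card_le_three
  have : nIn G U ≤ (((clq G).filter (fun s => s ⊆ (U.erase u).erase w)) ×ˢ
      ({∅, {u}, {w}} : Finset (Finset V))).card := by
    unfold nIn
    apply Finset.card_le_card_of_injOn (fun s => ((s.erase u).erase w, s ∩ {u, w}))
    · intro s hs
      rw [mem_coe, mem_filter, mem_clq] at hs
      rw [mem_coe, mem_product, mem_filter, mem_clq]
      refine ⟨⟨?_, ?_⟩, ?_⟩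
      · intro a ha b hb hab
        simp only [coe_erase, Set.mem_diff, mem_coe, Set.mem_singleton_iff] at ha hb
        exact hs.1 (mem_coe.2 ha.1.1) (mem_coe.2 hb.1.1) hab
      · exact erase_subset_erase _ (erase_subset_erase _ hs.2)
      · simp only [mem_insert, mem_singleton]
        by_cases hu : u ∈ s
        · by_cases hw : w ∈ s
          · exact absurd (hs.1 (mem_coe.2 hu) (mem_coe.2 hw) huw) hadj
          · right; left
            ext a
            simp only [mem_inter, mem_insert, mem_singleton]
            constructor
            · rintro ⟨h1, rfl | rfl⟩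
              · rfl
              · exact absurd h1 hw
            · rintro rfl; exact ⟨hu, Or.inl rfl⟩
        · by_cases hw : w ∈ s
          · right; right
            ext a
            simp only [mem_inter, mem_insert, mem_singleton]
            constructor
            · rintro ⟨h1, rfl | rfl⟩
              · exact absurd h1 hu
              · rfl
            · rintro rfl; exact ⟨hw, Or.inr rfl⟩
          · left
            ext a
            simp only [mem_inter, mem_insert, mem_singleton, Finset.notMem_empty, iff_false]
            rintro ⟨h1, rfl | rfl⟩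
            · exact hu h1
            · exact hw h1
    · intro s _ s' _ h
      simp only [Prod.mk.injEq] at h
      ext a
      by_cases hau : a = u
      · subst hau
        have := Finset.ext_iff.1 h.2 a
        simpa using this
      · by_cases haw : a = w
        · subst haw
          have := Finset.ext_iff.1 h.2 a
          simpa using this
        · have := Finset.ext_iff.1 h.1 a
          simpa [hau, haw] using this
  rw [card_product] at this
  calc nIn G U ≤ _ := this
    _ ≤ nIn G ((U.erase u).erase w) * 3 := Nat.mul_le_mul_left _ h3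
    _ = _ := by ring

theorem cover_or_small (G : SimpleGraph V) : ∀ (ν : ℕ) (U : Finset V),
    (∃ C ⊆ U, C.card ≤ 2 * ν ∧ ∀ x ∈ U, x ∉ C → ∀ y ∈ U, y ∉ C → x ≠ y → G.Adj x y) ∨
      nIn G U * 4 ^ ν ≤ 3 ^ ν * 2 ^ U.card := by
  intro ν
  induction ν with
  | zero =>
    intro U
    right
    simpa using nIn_le G U
  | succ ν ih =>
    intro U
    by_cases hU : ∀ x ∈ U, ∀ y ∈ U, x ≠ y → G.Adj x y
    · left
      exact ⟨∅, by simp, by simp, fun x hx _ y hy _ h => hU x hx y hy h⟩
    · push Not at hU
      obtain ⟨u, hu, w, hw, huw, hadj⟩ := hU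
      have hcard : ((U.erase u).erase w).card + 2 = U.card := by
        rw [card_erase_of_mem (mem_erase.2 ⟨huw.symm, hw⟩), card_erase_of_mem hu]
        have h2 : 1 < U.card := Finset.one_lt_card.2 ⟨u, hu, w, hw, huw⟩
        omega
      rcases ih ((U.erase u).erase w) with ⟨C, hC1, hC2, hC3⟩ | h
      · left
        refine ⟨insert u (insert w C), ?_, ?_, ?_⟩
        · intro a ha
          rw [mem_insert, mem_insert] at ha
          rcases ha with rfl | rfl | ha
          · exact hu
          · exact hw
          · exact mem_of_mem_erase (mem_of_mem_erase (hC1 ha))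
        · have h1 := card_insert_le u (insert w C)
          have h2 := card_insert_le w C
          omega
        · intro x hx hxC y hy hyC hxy
          rw [mem_insert, mem_insert] at hxC hyC
          push Not at hxC hyC
          exact hC3 x (mem_erase.2 ⟨hxC.2.1, mem_erase.2 ⟨hxC.1, hx⟩⟩) hxC.2.2 y
            (mem_erase.2 ⟨hyC.2.1, mem_erase.2 ⟨hyC.1, hy⟩⟩) hyC.2.2 hxy
      · right
        have h1 := nIn_step G U huw hadj
        rw [← hcard, pow_add]
        calc nIn G U * 4 ^ (ν + 1) ≤ (3 * nIn G ((U.erase u).erase w)) * 4 ^ (ν + 1) :=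
              Nat.mul_le_mul_right _ h1
          _ = 12 * (nIn G ((U.erase u).erase w) * 4 ^ ν) := by ring
          _ ≤ 12 * (3 ^ ν * 2 ^ ((U.erase u).erase w).card) := Nat.mul_le_mul_left _ h
          _ = _ := by ring

/-- the common neighbours of `S` outside `C` -/
noncomputable def cmn (G : SimpleGraph V) (C S : Finset V) : Finset V := by
  classical exact univ.filter fun x => x ∉ C ∧ ∀ y ∈ S, G.Adj y x

lemma mem_cmn (G : SimpleGraph V) (C S : Finset V) (x : V) :
    x ∈ cmn G C S ↔ x ∉ C ∧ ∀ y ∈ S, G.Adj y x := by
  simp [cmn]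

theorem card_clq_cover (G : SimpleGraph V) (C : Finset V)
    (hC : ∀ x, x ∉ C → ∀ y, y ∉ C → x ≠ y → G.Adj x y) :
    (clq G).card = ∑ S ∈ (clq G).filter (fun s => s ⊆ C), 2 ^ (cmn G C S).card := by
  classical
  rw [Finset.card_eq_sum_card_fiberwise (f := fun s => s ∩ C)
    (t := (clq G).filter (fun s => s ⊆ C))]
  · apply Finset.sum_congr rfl
    intro S hS
    rw [mem_filter, mem_clq] at hS
    rw [← Finset.card_powerset]
    apply Finset.card_bij (fun s _ => s \ C)
    · intro s hs
      rw [mem_filter, mem_clq] at hs
      rw [mem_powerset]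
      intro x hx
      rw [mem_sdiff] at hx
      rw [mem_cmn]
      refine ⟨hx.2, fun y hy => ?_⟩
      rw [← hs.2, mem_inter] at hy
      exact hs.1 (mem_coe.2 hy.1) (mem_coe.2 hx.1) (fun h => hx.2 (h ▸ hy.2))
    · intro s hs s' hs' h
      rw [mem_filter] at hs hs'
      rw [← Finset.sdiff_union_inter s C, ← Finset.sdiff_union_inter s' C, h, hs.2, hs'.2]
    · intro T hT
      rw [mem_powerset] at hT
      refine ⟨T ∪ S, ?_, ?_⟩
      · rw [mem_filter, mem_clq]
        constructor
        · intro a ha b hb hab
          rw [mem_coe, mem_union] at ha hb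
          rcases ha with ha | ha <;> rcases hb with hb | hb
          · exact hC a ((mem_cmn G C S a).1 (hT ha)).1 b ((mem_cmn G C S b).1 (hT hb)).1 hab
          · exact (((mem_cmn G C S a).1 (hT ha)).2 b hb).symm
          · exact ((mem_cmn G C S b).1 (hT hb)).2 a ha
          · exact hS.1 (mem_coe.2 ha) (mem_coe.2 hb) hab
        · ext a
          rw [mem_inter, mem_union]
          constructor
          · rintro ⟨h1 | h1, h2⟩
            · exact absurd h2 ((mem_cmn G C S a).1 (hT h1)).1
            · exact h1
          · intro h; exact ⟨Or.inr h, hS.2 h⟩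
      · ext a
        rw [mem_sdiff, mem_union]
        constructor
        · rintro ⟨h1 | h1, h2⟩
          · exact h1
          · exact absurd (hS.2 h1) h2
        · intro h; exact ⟨Or.inl h, ((mem_cmn G C S a).1 (hT h)).1⟩
  · intro s hs
    rw [mem_coe, mem_clq] at hs
    rw [mem_coe, mem_filter, mem_clq]
    exact ⟨fun a ha b hb hab => hs (by simpa using (mem_inter.1 (mem_coe.1 ha)).1)
      (by simpa using (mem_inter.1 (mem_coe.1 hb)).1) hab, inter_subset_right⟩

end Cover

end Pool.Agent.CliqueCount
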