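import Pool.Agent.CliqueCount.Upper1

set_option autoImplicit false

open Finset

namespace Pool.Agent.CliqueCount

/-- index type -/
abbrev Ix (y κ : ℕ) : Type := Fin (y + 1) ⊕ Fin (κ + 1)

/-- the data which determines the leading part -/
abbrev Dat (n y κ W : ℕ) : Type :=
  Finset (Ix y κ × Ix y κ) × (Finset (Fin (κ + 1)) → Fin (n + 1)) ×
    (Fin W → Option (Finset (Ix y κ)))

open scoped Classical in
/-- the leading part -/
noncomputable def Phi {n y κ W : ℕ} (d : Dat n y κ W) : ℕ :=
  ∑ S ∈ univ.filter (fun S : Finset (Ix y κ) => ∀ u ∈ S, ∀ v ∈ S, (u, v) ∈ d.1),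
    2 ^ ((d.2.1 S.toRight : ℕ) +
      (univ.filter fun i : Fin W => ∃ T, d.2.2 i = some T ∧ Disjoint T S).card)

lemma exists_inj {V : Type*} (U : Finset V) {y : ℕ} (h : U.card ≤ y + 1) :
    ∃ f : V → Fin (y + 1), Set.InjOn f U := by
  classical
  obtain ⟨g⟩ := Function.Embedding.nonempty_of_card_le (α := {x // x ∈ U}) (β := Fin (y + 1))
    (by simpa using h)
  refine ⟨fun v => if hv : v ∈ U then g ⟨v, hv⟩ else 0, ?_⟩
  intro a ha b hb hab
  simp only [mem_coe] at ha hb
  simp only [ha, hb, dif_pos] at hab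
  have := g.injective hab
  simpa using this

theorem lead_mem_range {V : Type*} [Fintype V] [DecidableEq V] (G : SimpleGraph V)
    (C Lo Hi : Finset V) {n y κ W : ℕ} (hLo : Lo.card ≤ y + 1) (hHi : Hi.card ≤ κ + 1)
    (hdis : Disjoint Lo Hi) (hn : Fintype.card V ≤ n)
    (U : Finset V) (hU : ∀ x, x ∈ U ↔ x ∉ C ∧ ∃ v ∈ Lo, ¬ G.Adj v x) (hW : U.card ≤ W) :
    ∃ d : Dat n y κ W,
      ∑ S ∈ (clq G).filter (fun s => s ⊆ Lo ∪ Hi), 2 ^ (cmn G C S).card = Phi d := by
  classical
  obtain ⟨fa, hfa⟩ := exists_inj Lo hLo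
  obtain ⟨fb, hfb⟩ := exists_inj Hi hHi
  set ε : V → Ix y κ := fun v => if v ∈ Lo then .inl (fa v) else .inr (fb v) with hε
  have hεLo : ∀ v ∈ Lo, ε v = .inl (fa v) := fun v hv => by simp [hε, hv]
  have hεHi : ∀ v ∈ Hi, ε v = .inr (fb v) := fun v hv => by
    have : v ∉ Lo := fun h => (Finset.disjoint_left.1 hdis h hv)
    simp [hε, this]
  have hinj : ∀ u ∈ Lo ∪ Hi, ∀ v ∈ Lo ∪ Hi, ε u = ε v → u = v := by
    intro u hu v hv h
    rw [mem_union] at hu hv
    rcases hu with hu | hu <;> rcases hv with hv | hv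
    · rw [hεLo u hu, hεLo v hv] at h
      exact hfa hu hv (by simpa using h)
    · rw [hεLo u hu, hεHi v hv] at h; simp at h
    · rw [hεHi u hu, hεLo v hv] at h; simp at h
    · rw [hεHi u hu, hεHi v hv] at h
      exact hfb hu hv (by simpa using h)
  clear_value ε
  obtain ⟨φ⟩ := Function.Embedding.nonempty_of_card_le (α := {x // x ∈ U}) (β := Fin W)
    (by simpa using hW)
  -- the data
  let E : Finset (Ix y κ × Ix y κ) := univ.filter fun p =>
    ∃ u ∈ Lo ∪ Hi, ∃ v ∈ Lo ∪ Hi, ε u = p.1 ∧ ε v = p.2 ∧ (u = v ∨ G.Adj u v)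
  let cf : Finset (Fin (κ + 1)) → ℕ := fun T => (univ.filter fun x : V =>
    (x ∉ C ∧ x ∉ U) ∧ ∀ v ∈ Hi, fb v ∈ T → G.Adj v x).card
  have hcf : ∀ T, cf T < n + 1 := by
    intro T
    have : cf T ≤ Fintype.card V := Finset.card_le_univ _
    omega
  let NN : V → Finset (Ix y κ) := fun x => ((Lo ∪ Hi).filter fun v => ¬ G.Adj v x).image ε
  let g : Fin W → Option (Finset (Ix y κ)) := fun i =>
    if h : ∃ x, φ x = i then some (NN h.choose) else none
  refine ⟨⟨E, fun T => ⟨cf T, hcf T⟩, g⟩, ?_⟩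
  unfold Phi
  -- exponent identity
  have hexp : ∀ S : Finset V, S ⊆ Lo ∪ Hi → (cmn G C S).card = cf (S.image ε).toRight +
      (univ.filter fun i : Fin W => ∃ T, g i = some T ∧ Disjoint T (S.image ε)).card := by
    intro S hS
    have hsplit : (cmn G C S).card = ((cmn G C S).filter (fun x => x ∉ U)).card +
        ((cmn G C S).filter (fun x => ¬ (x ∉ U))).card :=
      (Finset.card_filter_add_card_filter_not _).symm
    rw [hsplit]
    congr 1
    · show _ = (univ.filter fun x : V => (x ∉ C ∧ x ∉ U) ∧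
        ∀ v ∈ Hi, fb v ∈ (S.image ε).toRight → G.Adj v x).card
      congr 1
      ext x
      simp only [mem_filter, mem_cmn, mem_univ, true_and]
      constructor
      · rintro ⟨⟨h1, h2⟩, h3⟩
        refine ⟨⟨h1, h3⟩, fun v hv hT => ?_⟩
        rw [mem_toRight, mem_image] at hT
        obtain ⟨w, hw, hw2⟩ := hT
        have : w = v := hinj w (hS hw) v (mem_union_right _ hv) (by rw [hw2, hεHi v hv])
        rw [← this]
        exact h2 w hw
      · rintro ⟨⟨h1, h3⟩, h2⟩
        refine ⟨⟨h1, fun v hv => ?_⟩, h3⟩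
        rcases mem_union.1 (hS hv) with h | h
        · by_contra hcon
          exact h3 ((hU x).2 ⟨h1, v, h, hcon⟩)
        · apply h2 v h
          rw [mem_toRight, mem_image]
          exact ⟨v, hv, hεHi v h⟩
    · apply Finset.card_bij (fun x hx => φ ⟨x, by
        have := (mem_filter.1 hx).2; push Not at this; exact this⟩)
      · intro x hx
        rw [mem_filter, mem_cmn] at hx
        have hxU : x ∈ U := by have := hx.2; push Not at this; exact this
        rw [mem_filter]
        refine ⟨mem_univ _, NN x, ?_, ?_⟩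
        · have hex : ∃ x', φ x' = φ ⟨x, hxU⟩ := ⟨_, rfl⟩
          have h1 : hex.choose = ⟨x, hxU⟩ := φ.injective hex.choose_spec
          simp only [g, dif_pos hex]
          rw [h1]
        · rw [Finset.disjoint_left]
          intro p hp hp2
          simp only [NN, mem_image, mem_filter] at hp hp2
          obtain ⟨u, ⟨hu, hnadj⟩, rfl⟩ := hp
          obtain ⟨v, hv, hvu⟩ := hp2
          have : v = u := hinj v (hS hv) u hu hvu
          exact hnadj (this ▸ hx.1.2 v hv)
      · intro x _ x' _ h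
        have := φ.injective h
        simpa using this
      · intro i hi
        rw [mem_filter] at hi
        obtain ⟨_, T, hT, hdisj⟩ := hi
        by_cases hex : ∃ x, φ x = i
        · simp only [g, dif_pos hex, Option.some.injEq] at hT
          refine ⟨hex.choose, ?_, hex.choose_spec⟩
          have hxU : (hex.choose : V) ∈ U := hex.choose.2
          rw [mem_filter, mem_cmn]
          refine ⟨⟨((hU _).1 hxU).1, fun v hv => ?_⟩, by push Not; exact hxU⟩
          by_contra hcon
          refine Finset.disjoint_left.1 hdisj (?_ : ε v ∈ T) ?_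
          · rw [← hT]
            simp only [NN, mem_image, mem_filter]
            exact ⟨v, ⟨hS hv, hcon⟩, rfl⟩
          · exact mem_image_of_mem _ hv
        · simp only [g, dif_neg hex] at hT
          cases hT
  apply Finset.sum_bij (fun S _ => S.image ε)
  · intro S hS
    rw [mem_filter, mem_clq] at hS
    rw [mem_filter]
    refine ⟨mem_univ _, ?_⟩
    intro p hp q hq
    rw [mem_image] at hp hq
    obtain ⟨u, hu, rfl⟩ := hp
    obtain ⟨v, hv, rfl⟩ := hq
    simp only [E, mem_filter, mem_univ, true_and]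
    refine ⟨u, hS.2 hu, v, hS.2 hv, rfl, rfl, ?_⟩
    by_cases huv : u = v
    · exact Or.inl huv
    · exact Or.inr (hS.1 (mem_coe.2 hu) (mem_coe.2 hv) huv)
  · intro S hS S' hS' h
    rw [mem_filter] at hS hS'
    ext a
    constructor
    · intro ha
      have : ε a ∈ S'.image ε := h ▸ mem_image_of_mem _ ha
      obtain ⟨b, hb, hba⟩ := mem_image.1 this
      rw [← hinj b (hS'.2 hb) a (hS.2 ha) hba]
      exact hb
    · intro ha
      have : ε a ∈ S.image ε := h ▸ mem_image_of_mem _ ha
      obtain ⟨b, hb, hba⟩ := mem_image.1 this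
      rw [← hinj b (hS.2 hb) a (hS'.2 ha) hba]
      exact hb
  · intro T hT
    rw [mem_filter] at hT
    have hT' := hT.2
    simp only [E, mem_filter, mem_univ, true_and] at hT'
    refine ⟨(Lo ∪ Hi).filter (fun v => ε v ∈ T), ?_, ?_⟩
    · rw [mem_filter, mem_clq]
      refine ⟨?_, filter_subset _ _⟩
      intro a ha b hb hab
      rw [mem_coe, mem_filter] at ha hb
      obtain ⟨u, hu, v, hv, e1, e2, e3⟩ := hT' _ ha.2 _ hb.2
      have hua : u = a := hinj u hu a ha.1 e1
      have hvb : v = b := hinj v hv b hb.1 e2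
      subst hua hvb
      rcases e3 with e3 | e3
      · exact absurd e3 hab
      · exact e3
    · ext p
      rw [mem_image]
      constructor
      · rintro ⟨a, ha, rfl⟩
        exact (mem_filter.1 ha).2
      · intro hp
        obtain ⟨u, hu, _, _, e1, _⟩ := hT' p hp p hp
        exact ⟨u, mem_filter.2 ⟨hu, by rw [e1]; exact hp⟩, e1⟩
  · intro S hS
    rw [mem_filter] at hS
    rw [hexp S hS.2]

lemma card_Dat (n y κ W : ℕ) : Fintype.card (Dat n y κ W) =
    2 ^ ((y + 1 + (κ + 1)) * (y + 1 + (κ + 1))) * ((n + 1) ^ 2 ^ (κ + 1) *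
      (2 ^ (y + 1 + (κ + 1)) + 1) ^ W) := by
  simp [Fintype.card_prod, Fintype.card_finset, Fintype.card_option]

end Pool.Agent.CliqueCount
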