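import Pool.Agent.CliqueCount.Upper2

set_option autoImplicit false

open Finset

namespace Pool.Agent.CliqueCount

/-- the possible numbers of cliques, the empty one included -/
def vals (n : ℕ) : Set ℕ := {N | ∃ G : SimpleGraph (Fin n), (clq G).card = N}

open scoped Classical in
/-- the number of non-neighbours of `v` outside `C` -/
noncomputable def dd {V : Type*} [Fintype V] (G : SimpleGraph V) (C : Finset V) (v : V) : ℕ :=
  (univ.filter fun x => x ∉ C ∧ ¬ G.Adj v x).card

open scoped Classical in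
/-- the part of the cover with few non-neighbours -/
noncomputable def lev {V : Type*} [Fintype V] (G : SimpleGraph V) (C : Finset V) (θ : ℕ) :
    Finset V := C.filter fun v => dd G C v ≤ θ

lemma nIn_univ {V : Type*} [Fintype V] [DecidableEq V] (G : SimpleGraph V) :
    nIn G univ = (clq G).card := by
  unfold nIn
  rw [Finset.filter_true_of_mem]
  intro s _
  exact subset_univ s

lemma cmn_add_dd_le {V : Type*} [Fintype V] [DecidableEq V] (G : SimpleGraph V)
    (C S : Finset V) (v : V) (hv : v ∈ S) : (cmn G C S).card + dd G C v ≤ Fintype.card V := by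
  have hD : ∃ D : Finset V, dd G C v = D.card ∧ ∀ x ∈ D, ¬ G.Adj v x := by
    unfold dd
    refine ⟨_, rfl, ?_⟩
    intro x hx
    classical
    simp only [mem_filter] at hx
    exact hx.2.2
  obtain ⟨D, hD1, hD2⟩ := hD
  have hdis : Disjoint (cmn G C S) D := by
    rw [Finset.disjoint_left]
    intro x hx hx2
    rw [mem_cmn] at hx
    exact hD2 x hx2 (hx.2 v hv)
  rw [hD1, ← Finset.card_union_of_disjoint hdis]
  exact Finset.card_le_univ _

theorem window {n ν J : ℕ} (θ κ : ℕ → ℕ) (hθ : Monotone θ)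
    (hsum : 2 * ν < ∑ j ∈ range J, (κ j + 2)) (G : SimpleGraph (Fin n))
    (hbig : 3 ^ ν * 2 ^ n < (clq G).card * 4 ^ ν) :
    ∃ j < J, ∃ d : Dat n (2 * ν) (κ j) (2 * ν * θ j),
      ∃ r ≤ 2 ^ (2 * ν + (n - θ (j + 1))), (clq G).card = Phi d + r := by
  classical
  rcases cover_or_small G ν univ with ⟨C, -, hC2, hC3⟩ | h
  swap
  · rw [nIn_univ, Finset.card_univ, Fintype.card_fin] at h
    omega
  -- pigeonhole
  have hpig : ∃ j < J, (lev G C (θ (j + 1)) \ lev G C (θ j)).card ≤ κ j + 1 := by
    by_contra hcon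
    push Not at hcon
    have hdisj : ∀ j, Disjoint (lev G C (θ j)) (lev G C (θ (j + 1)) \ lev G C (θ j)) :=
      fun j => Finset.disjoint_sdiff
    have hsub : ∀ j, lev G C (θ j) ∪ (lev G C (θ (j + 1)) \ lev G C (θ j)) ⊆
        lev G C (θ (j + 1)) := by
      intro j v hv
      rw [mem_union] at hv
      rcases hv with hv | hv
      · unfold lev at hv ⊢
        rw [mem_filter] at hv ⊢
        exact ⟨hv.1, hv.2.trans (hθ (Nat.le_succ j))⟩
      · exact (mem_sdiff.1 hv).1
    have hind : ∀ k ≤ J, ∑ j ∈ range k, (κ j + 2) ≤ (lev G C (θ k)).card := by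
      intro k
      induction k with
      | zero => intro _; simp
      | succ k ih =>
        intro hk
        rw [Finset.sum_range_succ]
        have h1 := ih (by omega)
        have h2 := hcon k (by omega)
        have h3 := Finset.card_le_card (hsub k)
        rw [Finset.card_union_of_disjoint (hdisj k)] at h3
        omega
    have h1 := hind J le_rfl
    have h2 : (lev G C (θ J)).card ≤ C.card := Finset.card_filter_le _ _
    omega
  obtain ⟨j, hj, hcard⟩ := hpig
  refine ⟨j, hj, ?_⟩
  set Lo := lev G C (θ j) with hLo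
  set Hi := lev G C (θ (j + 1)) \ Lo with hHi
  have hLoHi : Lo ∪ Hi = lev G C (θ (j + 1)) := by
    rw [hHi, Finset.union_sdiff_of_subset]
    intro v hv
    rw [hLo] at hv
    unfold lev at hv ⊢
    rw [mem_filter] at hv ⊢
    exact ⟨hv.1, hv.2.trans (hθ (Nat.le_succ j))⟩
  have hLoC : Lo.card ≤ 2 * ν := (Finset.card_filter_le _ _).trans hC2
  -- the set U
  let U : Finset (Fin n) := univ.filter fun x => x ∉ C ∧ ∃ v ∈ Lo, ¬ G.Adj v x
  have hU : ∀ x, x ∈ U ↔ x ∉ C ∧ ∃ v ∈ Lo, ¬ G.Adj v x := by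
    intro x; simp [U]
  have hUcard : U.card ≤ 2 * ν * θ j := by
    have h1 : U ⊆ Lo.biUnion fun v => univ.filter fun x => x ∉ C ∧ ¬ G.Adj v x := by
      intro x hx
      rw [hU] at hx
      obtain ⟨h1, v, hv, h2⟩ := hx
      rw [mem_biUnion]
      exact ⟨v, hv, by simp [h1, h2]⟩
    calc U.card ≤ _ := Finset.card_le_card h1
      _ ≤ ∑ v ∈ Lo, (univ.filter fun x => x ∉ C ∧ ¬ G.Adj v x).card := Finset.card_biUnion_le
      _ ≤ ∑ v ∈ Lo, θ j := by
        apply Finset.sum_le_sum
        intro v hv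
        rw [hLo] at hv
        unfold lev at hv
        rw [mem_filter] at hv
        have := hv.2
        unfold dd at this
        refine le_trans (le_of_eq ?_) this
        congr!
      _ = Lo.card * θ j := by simp
      _ ≤ 2 * ν * θ j := Nat.mul_le_mul_right _ hLoC
  obtain ⟨d, hd⟩ := lead_mem_range (n := n) (y := 2 * ν) (κ := κ j) (W := 2 * ν * θ j) G C Lo Hi
    (by omega) hcard Finset.disjoint_sdiff (by simp) U hU hUcard
  refine ⟨d, ∑ S ∈ ((clq G).filter (fun s => s ⊆ C)).filter (fun s => ¬ (s ⊆ Lo ∪ Hi)),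
    2 ^ (cmn G C S).card, ?_, ?_⟩
  · have hb : ∀ S ∈ ((clq G).filter (fun s => s ⊆ C)).filter (fun s => ¬ (s ⊆ Lo ∪ Hi)),
        2 ^ (cmn G C S).card ≤ 2 ^ (n - θ (j + 1)) := by
      intro S hS
      rw [mem_filter, mem_filter] at hS
      apply Nat.pow_le_pow_right (by norm_num)
      rw [Finset.not_subset] at hS
      obtain ⟨⟨_, hSC⟩, v, hv, hv2⟩ := hS
      rw [hLoHi] at hv2
      unfold lev at hv2
      rw [mem_filter] at hv2
      have h1 : θ (j + 1) < dd G C v := by
        by_contra hcon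
        push Not at hcon
        exact hv2 ⟨hSC hv, hcon⟩
      have h2 := cmn_add_dd_le G C S v hv
      rw [Fintype.card_fin] at h2
      omega
    calc _ ≤ ∑ S ∈ ((clq G).filter (fun s => s ⊆ C)).filter (fun s => ¬ (s ⊆ Lo ∪ Hi)),
          2 ^ (n - θ (j + 1)) := Finset.sum_le_sum hb
      _ = (((clq G).filter (fun s => s ⊆ C)).filter (fun s => ¬ (s ⊆ Lo ∪ Hi))).card *
          2 ^ (n - θ (j + 1)) := by simp
      _ ≤ 2 ^ (2 * ν) * 2 ^ (n - θ (j + 1)) := by
        apply Nat.mul_le_mul_right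
        calc _ ≤ (C.powerset).card := by
              apply Finset.card_le_card
              intro s hs
              rw [mem_filter, mem_filter] at hs
              rw [mem_powerset]
              exact hs.1.2
          _ = 2 ^ C.card := Finset.card_powerset _
          _ ≤ 2 ^ (2 * ν) := Nat.pow_le_pow_right (by norm_num) hC2
      _ = _ := by rw [pow_add]
  · rw [card_clq_cover G C (fun x hx y hy h => hC3 x (mem_univ _) hx y (mem_univ _) hy h), ← hd]
    rw [← Finset.sum_filter_add_sum_filter_not ((clq G).filter (fun s => s ⊆ C))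
      (fun s => s ⊆ Lo ∪ Hi)]
    congr 1
    apply Finset.sum_congr _ (fun _ _ => rfl)
    ext s
    simp only [mem_filter]
    constructor
    · rintro ⟨⟨h1, h2⟩, h3⟩; exact ⟨h1, h3⟩
    · rintro ⟨h1, h3⟩
      refine ⟨⟨h1, ?_⟩, h3⟩
      intro v hv
      have := h3 hv
      rw [hLoHi] at this
      exact (mem_filter.1 this).1

theorem vals_ncard_le {n ν J : ℕ} (θ κ : ℕ → ℕ) (hθ : Monotone θ)
    (hsum : 2 * ν < ∑ j ∈ range J, (κ j + 2)) :
    (vals n).ncard ≤ (3 ^ ν * 2 ^ n / 4 ^ ν + 1) + ∑ j ∈ range J,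
      Fintype.card (Dat n (2 * ν) (κ j) (2 * ν * θ j)) *
        (2 ^ (2 * ν + (n - θ (j + 1))) + 1) := by
  classical
  set A : Finset ℕ := range (3 ^ ν * 2 ^ n / 4 ^ ν + 1) with hA
  set B : ℕ → Finset ℕ := fun j =>
    ((univ : Finset (Dat n (2 * ν) (κ j) (2 * ν * θ j))) ×ˢ
      range (2 ^ (2 * ν + (n - θ (j + 1))) + 1)).image (fun p => Phi p.1 + p.2) with hB
  have hsub : vals n ⊆ ((A ∪ (range J).biUnion B : Finset ℕ) : Set ℕ) := by
    rintro N ⟨G, rfl⟩
    rw [mem_coe, mem_union]
    by_cases h : 3 ^ ν * 2 ^ n < (clq G).card * 4 ^ ν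
    · right
      obtain ⟨j, hj, d, r, hr, he⟩ := window θ κ hθ hsum G h
      rw [mem_biUnion]
      refine ⟨j, mem_range.2 hj, ?_⟩
      rw [hB]
      simp only [mem_image, mem_product, mem_univ, true_and]
      exact ⟨(d, r), mem_range.2 (by omega), he.symm⟩
    · left
      rw [hA, mem_range]
      push Not at h
      have : (clq G).card ≤ 3 ^ ν * 2 ^ n / 4 ^ ν := by
        rw [Nat.le_div_iff_mul_le (by positivity)]
        exact h
      omega
  calc (vals n).ncard ≤ ((A ∪ (range J).biUnion B : Finset ℕ) : Set ℕ).ncard :=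
        Set.ncard_le_ncard hsub (Finset.finite_toSet _)
    _ = (A ∪ (range J).biUnion B).card := Set.ncard_coe_finset _
    _ ≤ A.card + ((range J).biUnion B).card := Finset.card_union_le _ _
    _ ≤ A.card + ∑ j ∈ range J, (B j).card := Nat.add_le_add_left Finset.card_biUnion_le _
    _ ≤ _ := by
      apply Nat.add_le_add
      · rw [hA, card_range]
      · apply Finset.sum_le_sum
        intro j _
        refine Finset.card_image_le.trans ?_
        rw [card_product, card_range, Finset.card_univ]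

end Pool.Agent.CliqueCount
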