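import Pool.Agent.CliqueCount.Upper3

set_option autoImplicit false

open Finset

namespace Pool.Agent.CliqueCount

lemma ten_mul_le {A : ℕ} (hA : 8 ≤ A) : 10 * A ≤ 2 ^ A := by
  induction A, hA using Nat.le_induction with
  | base => norm_num
  | succ k hk ih => rw [pow_succ]; omega

lemma three_four (ν n : ℕ) (h : ν / 3 ≤ n) : 3 ^ ν * 2 ^ n / 4 ^ ν ≤ 2 ^ (n - ν / 3) := by
  set m := ν / 3 with hm
  apply Nat.div_le_of_le_mul
  have h1 : 3 ^ ν * 2 ^ m ≤ 4 ^ ν := by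
    obtain ⟨r, hr⟩ : ∃ r, ν = 3 * m + r := ⟨ν % 3, by omega⟩
    rw [hr, pow_add, pow_add, pow_mul, pow_mul]
    calc (3 ^ 3) ^ m * 3 ^ r * 2 ^ m = (54 ^ m) * 3 ^ r := by
          rw [show (54 : ℕ) = 3 ^ 3 * 2 by norm_num, mul_pow]; ring
      _ ≤ (4 ^ 3) ^ m * 4 ^ r :=
          Nat.mul_le_mul (Nat.pow_le_pow_left (by norm_num) _) (Nat.pow_le_pow_left (by norm_num) _)
  have h2 : 2 ^ n = 2 ^ m * 2 ^ (n - m) := by rw [← pow_add]; congr 1; omega
  calc 3 ^ ν * 2 ^ n = (3 ^ ν * 2 ^ m) * 2 ^ (n - m) := by rw [h2]; ring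
    _ ≤ 4 ^ ν * 2 ^ (n - m) := Nat.mul_le_mul_right _ h1

theorem term_bound {n L A j ν κ : ℕ} (hL2 : n < 2 ^ (L + 1))
    (hA2 : L < 2 ^ (A + 1)) (hA8 : 8 ≤ A) (hν : 2 * ν ≤ L ^ 2) (hκ : κ + A + 5 = 5 * A * (j + 2))
    (hj : 5 * A * (j + 2) ≤ L) (hn : 2 ^ (5 * A * (j + 2)) ≤ n) (hL : 1 ≤ L) :
    Fintype.card (Dat n (2 * ν) κ (2 * ν * 2 ^ (5 * A * (j + 1)))) *
        (2 ^ (2 * ν + (n - 2 ^ (5 * A * (j + 2)))) + 1) ≤
      2 ^ (n - 4 * 2 ^ (10 * A - 3)) := by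
  set B := 2 ^ A with hB
  have hB256 : 256 ≤ B := by
    calc 256 = 2 ^ 8 := by norm_num
      _ ≤ 2 ^ A := Nat.pow_le_pow_right (by norm_num) hA8
  have hLB : L + 1 ≤ 2 * B := by
    have : 2 ^ (A + 1) = 2 * B := by rw [hB]; ring
    omega
  have hLsq : L ≤ L ^ 2 := by nlinarith
  have hZ : 2 * ν + 1 + (κ + 1) + 1 ≤ 2 * L ^ 2 := by
    have : κ + 3 ≤ L := by omega
    omega
  set Z := 2 * ν + 1 + (κ + 1) with hZdef
  have hL4 : L ^ 4 ≤ 16 * B ^ 4 := by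
    calc L ^ 4 ≤ (2 * B) ^ 4 := Nat.pow_le_pow_left (by omega) _
      _ = 16 * B ^ 4 := by ring
  -- q
  obtain ⟨q, hq⟩ : ∃ q, q = 2 ^ (5 * A * (j + 2) - 3) := ⟨_, rfl⟩
  have h3 : 3 ≤ 5 * A * (j + 2) := by nlinarith
  have hq8 : 2 ^ (5 * A * (j + 2)) = 8 * q := by
    rw [hq, show (8 : ℕ) = 2 ^ 3 by norm_num, ← pow_add]
    congr 1
    omega
  have hB5 : 2 ^ (5 * A) = B ^ 5 := by rw [hB, ← pow_mul]; congr 1; ring
  have hsplit : 8 * q = B ^ 5 * 2 ^ (5 * A * (j + 1)) := by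
    rw [← hq8, ← hB5, ← pow_add]; congr 1; ring
  set θ := 2 ^ (5 * A * (j + 1)) with hθ
  have hθB : B ^ 5 ≤ θ := by
    rw [← hB5, hθ]
    apply Nat.pow_le_pow_right (by norm_num)
    nlinarith
  have hB4 : 256 * B ^ 4 ≤ B ^ 5 := by
    rw [pow_succ B 4, mul_comm (B ^ 4) B]
    exact Nat.mul_le_mul_right _ hB256
  have hq1 : 32 * B ^ 4 * θ ≤ q := by
    have : 256 * B ^ 4 * θ ≤ B ^ 5 * θ := Nat.mul_le_mul_right _ hB4
    have e : 256 * B ^ 4 * θ = 8 * (32 * B ^ 4 * θ) := by ring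
    omega
  have hθ256 : 256 ≤ θ := by
    have : B ≤ B ^ 5 := Nat.le_self_pow (by norm_num) B
    omega
  -- factor 1
  have f1 : Z * Z ≤ q := by
    calc Z * Z ≤ (2 * L ^ 2) * (2 * L ^ 2) := Nat.mul_le_mul (by omega) (by omega)
      _ = 4 * L ^ 4 := by ring
      _ ≤ 4 * (16 * B ^ 4) := Nat.mul_le_mul_left _ hL4
      _ = 32 * B ^ 4 * 2 := by ring
      _ ≤ 32 * B ^ 4 * θ := Nat.mul_le_mul_left _ (by omega)
      _ ≤ q := hq1
  -- factor 2
  have f2 : (L + 1) * 2 ^ (κ + 1) ≤ q := by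
    have e : 2 * B * 2 ^ (κ + 1) = q := by
      rw [hq, hB, ← pow_succ', ← pow_add]
      congr 1
      omega
    calc (L + 1) * 2 ^ (κ + 1) ≤ 2 * B * 2 ^ (κ + 1) := Nat.mul_le_mul_right _ hLB
      _ = q := e
  -- factor 3
  have f3 : (Z + 1) * (2 * ν * θ) ≤ q := by
    calc (Z + 1) * (2 * ν * θ) ≤ (2 * L ^ 2) * (L ^ 2 * θ) :=
          Nat.mul_le_mul hZ (Nat.mul_le_mul_right _ hν)
      _ = 2 * L ^ 4 * θ := by ring
      _ ≤ 2 * (16 * B ^ 4) * θ := Nat.mul_le_mul_right _ (Nat.mul_le_mul_left _ hL4)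
      _ = 32 * B ^ 4 * θ := by ring
      _ ≤ q := hq1
  -- factor 4
  have f4 : 2 * ν + 1 ≤ q := by
    have h1 : Z ≤ Z * Z := Nat.le_mul_self Z
    omega
  have hq0 : 2 ^ (10 * A - 3) ≤ q := by
    rw [hq]
    apply Nat.pow_le_pow_right (by norm_num)
    have : 10 * A ≤ 5 * A * (j + 2) := by nlinarith
    omega
  rw [card_Dat]
  calc 2 ^ (Z * Z) * ((n + 1) ^ 2 ^ (κ + 1) * (2 ^ Z + 1) ^ (2 * ν * θ)) *
        (2 ^ (2 * ν + (n - 2 ^ (5 * A * (j + 2)))) + 1)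
      ≤ 2 ^ q * (2 ^ q * 2 ^ q) * 2 ^ (q + (n - 8 * q)) := by
        apply Nat.mul_le_mul
        · apply Nat.mul_le_mul
          · exact Nat.pow_le_pow_right (by norm_num) f1
          · apply Nat.mul_le_mul
            · calc (n + 1) ^ 2 ^ (κ + 1) ≤ (2 ^ (L + 1)) ^ 2 ^ (κ + 1) :=
                    Nat.pow_le_pow_left hL2 _
                _ = 2 ^ ((L + 1) * 2 ^ (κ + 1)) := by rw [← pow_mul]
                _ ≤ 2 ^ q := Nat.pow_le_pow_right (by norm_num) f2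
            · calc (2 ^ Z + 1) ^ (2 * ν * θ) ≤ (2 ^ (Z + 1)) ^ (2 * ν * θ) := by
                    apply Nat.pow_le_pow_left
                    have : 0 < 2 ^ Z := by positivity
                    rw [pow_succ]; omega
                _ = 2 ^ ((Z + 1) * (2 * ν * θ)) := by rw [← pow_mul]
                _ ≤ 2 ^ q := Nat.pow_le_pow_right (by norm_num) f3
        · calc 2 ^ (2 * ν + (n - 2 ^ (5 * A * (j + 2)))) + 1
              ≤ 2 ^ (2 * ν + (n - 2 ^ (5 * A * (j + 2))) + 1) := by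
                have : 0 < 2 ^ (2 * ν + (n - 2 ^ (5 * A * (j + 2)))) := by positivity
                rw [pow_succ]; omega
            _ ≤ 2 ^ (q + (n - 8 * q)) := by
                apply Nat.pow_le_pow_right (by norm_num)
                rw [hq8]; omega
    _ = 2 ^ (q + (q + q) + (q + (n - 8 * q))) := by
        rw [pow_add 2 (q + (q + q)) (q + (n - 8 * q)), pow_add 2 q (q + q), pow_add 2 q q]
    _ ≤ 2 ^ (n - 4 * 2 ^ (10 * A - 3)) := by
        apply Nat.pow_le_pow_right (by norm_num)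
        rw [hq8] at hn
        generalize 2 ^ (10 * A - 3) = q0 at hq0
        omega

theorem upper_nat {n L A : ℕ} (hL1 : 2 ^ L ≤ n) (hL2 : n < 2 ^ (L + 1)) (hA1 : 2 ^ A ≤ L)
    (hA2 : L < 2 ^ (A + 1)) (hA8 : 8 ≤ A) :
    (vals n).ncard ≤ 2 ^ (n - L ^ 2 / (768 * A) + 2) := by
  have h10 : 10 * A ≤ L := (ten_mul_le hA8).trans hA1
  have hLn : L ^ 2 ≤ n := by
    have h8 : ∀ m, 8 ≤ m → m ^ 2 ≤ 2 ^ m := by
      intro m hm
      induction m, hm using Nat.le_induction with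
      | base => norm_num
      | succ k hk ih => rw [pow_succ 2 k]; nlinarith
    exact (h8 L (by omega)).trans hL1
  obtain ⟨ν, hν⟩ : ∃ ν, ν = L ^ 2 / (256 * A) := ⟨_, rfl⟩
  have hν1 : ν * (256 * A) ≤ L ^ 2 := by rw [hν]; exact Nat.div_mul_le_self _ _
  have hν2 : 2 * ν ≤ L ^ 2 := by nlinarith
  obtain ⟨J, hJ⟩ : ∃ J, J + 1 = L / (5 * A) := by
    have : 2 ≤ L / (5 * A) := by
      rw [Nat.le_div_iff_mul_le (by omega)]
      omega
    exact ⟨L / (5 * A) - 1, by omega⟩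
  have hJ0 : 1 ≤ J := by
    have : 2 ≤ L / (5 * A) := by
      rw [Nat.le_div_iff_mul_le (by omega)]
      omega
    omega
  have hJ1 : 5 * A * (J + 1) ≤ L := by rw [hJ]; exact Nat.mul_div_le _ _
  have hJ2 : L < 5 * A * (J + 2) := by
    have := Nat.lt_mul_div_succ L (show 0 < 5 * A by omega)
    rw [← hJ] at this
    exact this
  have hm : L ^ 2 / (768 * A) = ν / 3 := by
    rw [hν, Nat.div_div_eq_div_mul]
    congr 1
    ring
  have hκpos : ∀ j : ℕ, A + 5 ≤ 5 * A * (j + 2) := by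
    intro j
    nlinarith
  have hsum : 2 * ν < ∑ j ∈ range J, ((5 * A * (j + 2) - A - 5) + 2) := by
    have h1 : ∀ K, 5 * A * (K * (K + 1)) ≤ 2 * ∑ j ∈ range K, ((5 * A * (j + 2) - A - 5) + 2) := by
      intro K
      induction K with
      | zero => simp
      | succ K ih =>
        rw [Finset.sum_range_succ]
        have h2 := hκpos K
        have h3 : 5 * A * (K + 1) ≤ 5 * A * (K + 2) - A - 5 + 2 := by
          have : 5 * A * (K + 2) = 5 * A * (K + 1) + 5 * A := by ring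
          omega
        have e : 5 * A * ((K + 1) * (K + 1 + 1)) = 5 * A * (K * (K + 1)) + 2 * (5 * A * (K + 1)) := by
          ring
        omega
    have h4 := h1 J
    have h5 : L < 15 * (A * J) := by nlinarith
    have h6 : L ^ 2 < (15 * (A * J)) ^ 2 := Nat.pow_lt_pow_left h5 (by norm_num)
    have h7 : ν * 256 < 225 * (A * J ^ 2) := by
      have h8 : A * (ν * 256) < A * (225 * (A * J ^ 2)) := by
        calc A * (ν * 256) = ν * (256 * A) := by ring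
          _ ≤ L ^ 2 := hν1
          _ < (15 * (A * J)) ^ 2 := h6
          _ = A * (225 * (A * J ^ 2)) := by ring
      exact Nat.lt_of_mul_lt_mul_left h8
    have h9 : 5 * (A * J ^ 2) ≤ 5 * A * (J * (J + 1)) := by
      have : J ^ 2 ≤ J * (J + 1) := by nlinarith
      nlinarith
    omega
  have hθ : Monotone fun j : ℕ => 2 ^ (5 * A * (j + 1)) := by
    intro i j hij
    apply Nat.pow_le_pow_right (by norm_num)
    exact Nat.mul_le_mul_left _ (by omega)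
  have hmain := vals_ncard_le (n := n) (ν := ν) (J := J) (fun j => 2 ^ (5 * A * (j + 1)))
    (fun j => 5 * A * (j + 2) - A - 5) hθ hsum
  refine hmain.trans ?_
  rw [hm]
  have hνn : ν / 3 ≤ n := by omega
  have hq0 : 2 * L ^ 2 ≤ 4 * 2 ^ (10 * A - 3) := by
    have hLB : L ≤ 2 ^ (A + 1) := hA2.le
    calc 2 * L ^ 2 ≤ 2 * (2 ^ (A + 1)) ^ 2 := Nat.mul_le_mul_left _ (Nat.pow_le_pow_left hLB _)
      _ = 2 ^ (1 + (A + 1) * 2) := by rw [pow_add 2 1, ← pow_mul, pow_one]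
      _ ≤ 2 ^ (2 + (10 * A - 3)) := Nat.pow_le_pow_right (by norm_num) (by omega)
      _ = 4 * 2 ^ (10 * A - 3) := by rw [pow_add]; norm_num
  have hq1 : 4 * 2 ^ (10 * A - 3) ≤ n := by
    calc 4 * 2 ^ (10 * A - 3) = 2 ^ (2 + (10 * A - 3)) := by rw [pow_add]; norm_num
      _ ≤ 2 ^ L := Nat.pow_le_pow_right (by norm_num) (by omega)
      _ ≤ n := hL1
  have hS : ∑ j ∈ range J,
      Fintype.card (Dat n (2 * ν) (5 * A * (j + 2) - A - 5) (2 * ν * 2 ^ (5 * A * (j + 1)))) *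
        (2 ^ (2 * ν + (n - 2 ^ (5 * A * (j + 1 + 1)))) + 1) ≤ 2 ^ (n - ν / 3) := by
    calc _ ≤ ∑ j ∈ range J, 2 ^ (n - 4 * 2 ^ (10 * A - 3)) := by
          apply Finset.sum_le_sum
          intro j hj
          rw [mem_range] at hj
          have h1 : 5 * A * (j + 2) ≤ L := by
            refine le_trans (Nat.mul_le_mul_left _ ?_) hJ1
            omega
          have h2 : 2 ^ (5 * A * (j + 2)) ≤ n :=
            le_trans (Nat.pow_le_pow_right (by norm_num) h1) hL1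
          exact term_bound hL2 hA2 hA8 hν2 (by have := hκpos j; omega) h1 h2 (by omega)
      _ = J * 2 ^ (n - 4 * 2 ^ (10 * A - 3)) := by simp
      _ ≤ 2 ^ J * 2 ^ (n - 4 * 2 ^ (10 * A - 3)) :=
          Nat.mul_le_mul_right _ (Nat.lt_two_pow_self).le
      _ = 2 ^ (J + (n - 4 * 2 ^ (10 * A - 3))) := by rw [pow_add]
      _ ≤ 2 ^ (n - ν / 3) := by
          apply Nat.pow_le_pow_right (by norm_num)
          have hJL : J ≤ L := by nlinarith
          have hLsq : L ≤ L ^ 2 := by nlinarith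
          generalize 2 ^ (10 * A - 3) = q0 at hq0 hq1
          omega
  have hT := three_four ν n hνn
  have hp : 0 < 2 ^ (n - ν / 3) := by positivity
  rw [pow_add]
  have e : ∀ x : ℕ, x * 2 ^ 2 = 4 * x := by intro x; ring
  rw [e]
  have hS' : ∑ j ∈ range J,
      Fintype.card (Dat n (2 * ν) ((fun j => 5 * A * (j + 2) - A - 5) j)
        (2 * ν * (fun j : ℕ => 2 ^ (5 * A * (j + 1))) j)) *
        (2 ^ (2 * ν + (n - (fun j : ℕ => 2 ^ (5 * A * (j + 1))) (j + 1))) + 1) ≤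
          2 ^ (n - ν / 3) := hS
  generalize 2 ^ (n - ν / 3) = P at *
  calc _ ≤ (P + 1) + P := Nat.add_le_add (Nat.add_le_add_right hT 1) hS'
    _ ≤ 4 * P := by omega

end Pool.Agent.CliqueCount
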